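import Pool.Agent.Lib.helper22.ParF

set_option autoImplicit false

namespace Pool.Agent.H.MP_00b752_lc

open Pool.Agent.Lib.CX Pool.Agent.Lib.Par Finset Classical

section
variable {τ κ : Type}

noncomputable def dg (p q : τ → κ) (M : Finset τ) (v : κ) : ℕ := (M.filter fun e => p e = v ∨ q e = v).card

noncomputable def vec (J : List τ) (u : κ → ℕ) (p : τ → κ) (e : τ) (c : κ × ℕ) : ℤ :=
  if p e = c.1 ∧ c.2 < min (u c.1) J.length then ((J.idxOf e ^ min c.2 J.length : ℕ) : ℤ) else 0

noncomputable def mx (J : List τ) (p q : τ → κ) (u : κ → ℕ) : ℕ :=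
  lmp (J.map fun i => (((J.map p ++ J.map q) ×ˢ List.range J.length).map (vec J u p i),
    ((J.map p ++ J.map q) ×ˢ List.range J.length).map (vec J u q i)))

lemma vand {S : Finset τ} {x : τ → ℚ} (hx : Set.InjOn x S) {h : τ → ℚ}
    (e : ∀ j < S.card, ∑ i ∈ S, h i * x i ^ j = 0) : ∀ i ∈ S, h i = 0 := fun i hi => by
  have := Matrix.eq_zero_of_forall_pow_sum_mul_pow_eq_zero (f := fun k => x (S.equivFin.symm k))
    (v := fun k => h (S.equivFin.symm k))
    (fun a b ab => S.equivFin.symm.injective (Subtype.ext (hx (coe_mem _) (coe_mem _) ab))) fun j => by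
      rw [← e j j.2, ← sum_coe_sort S]
      exact S.equivFin.symm.sum_comp fun k => h k * x k ^ (j : ℕ)
  simpa using congrFun this (S.equivFin ⟨i, hi⟩)

lemma dep {S : Finset τ} (x : τ → ℚ) {m : ℕ} (hm : m < S.card) :
    ∃ h : τ → ℚ, (∀ j < m, ∑ i ∈ S, h i * x i ^ j = 0) ∧ ∃ i ∈ S, h i ≠ 0 := by
  have : ¬ LinearIndependent ℚ fun (i : S) (j : Fin m) => x i ^ (j : ℕ) := fun h => by
    have := h.fintype_card_le_finrank
    simp at this; omega
  obtain ⟨g, g1, i, g2⟩ := Fintype.not_linearIndependent_iff.1 this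
  refine ⟨fun t => if h : t ∈ S then g ⟨t, h⟩ else 0, fun j hj => ?_, i, i.2, by simpa using g2⟩
  rw [← sum_coe_sort S]
  simpa [Finset.sum_apply] using congrFun g1 ⟨j, hj⟩

lemma mx_spec {J : List τ} (hJ : J.Nodup) {p q : τ → κ} (hpq : ∀ e ∈ J, p e ≠ q e) (u : κ → ℕ) :
    IsGreatest {k | ∃ M : Finset τ, (∀ i ∈ M, i ∈ J) ∧ (∀ v, dg p q M v ≤ u v) ∧ M.card = k}
      (mx J p q u) := by
  have key : ∀ M : Finset τ, (∀ i ∈ M, i ∈ J) → (Mat (fun i c => (vec J u p i c : ℚ))
      (fun i c => (vec J u q i c : ℚ)) M ↔ ∀ v, dg p q M v ≤ u v) := fun M hM => by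
    have hs : ∀ (f g : τ → ℚ) v j, (∑ i ∈ M, (f i • (fun c => (vec J u p i c : ℚ)) +
        g i • fun c => (vec J u q i c : ℚ))) (v, j) = if j < min (u v) J.length then
        ∑ i ∈ M.filter fun e => p e = v ∨ q e = v, (if p i = v then f i else g i) * (J.idxOf i : ℚ) ^ j
        else 0 := fun f g v j => by
      rw [Finset.sum_apply]
      split_ifs with h
      · rw [sum_filter]
        refine sum_congr rfl fun i hi => ?_
        have := hpq i (hM i hi)
        have e : min j J.length = j := by omega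
        by_cases h1 : p i = v <;> by_cases h2 : q i = v
        · exact (this (h1.trans h2.symm)).elim
        all_goals simp [vec, h1, h2, lt_min_iff.1 h, e]
      · exact sum_eq_zero fun i _ => by simp [vec, mt lt_min_iff.2 h]
    have hl : ∀ v, dg p q M v ≤ J.length := fun v =>
      (card_le_card fun i hi => List.mem_toFinset.2 (hM i (mem_filter.1 hi).1)).trans (List.toFinset_card_le J)
    constructor
    · intro H v
      by_contra! hv
      obtain ⟨h, h1, i, hi, h2⟩ := dep (S := M.filter fun e => p e = v ∨ q e = v) (fun i => (J.idxOf i : ℚ)) hv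
      have := H (fun i => if p i = v then h i else 0) (fun i => if q i = v then h i else 0) (funext fun c => by
        obtain ⟨w, j⟩ := c
        rw [hs]; split_ifs with hj
        · by_cases hw : w = v
          · subst hw
            rw [Pi.zero_apply, ← h1 j (by omega)]
            refine sum_congr rfl fun i hi => ?_
            have := (mem_filter.1 hi).2
            split_ifs <;> tauto
          · refine sum_eq_zero fun i hi => ?_
            have := (mem_filter.1 hi).2
            split_ifs with a b c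
            · exact (hw (a.symm.trans b)).elim
            · simp
            · exact (hw ((this.resolve_left a).symm.trans c)).elim
            · simp
        · rfl) i (mem_filter.1 hi).1
      rcases (mem_filter.1 hi).2 with h3 | h3 <;> simp [h3, h2] at this
    · intro H f g e i hi
      have z : ∀ v, p i = v ∨ q i = v → (if p i = v then f i else g i) = 0 := fun v hv =>
        vand (S := M.filter fun e => p e = v ∨ q e = v) (x := fun i => (J.idxOf i : ℚ))
          (h := fun i => if p i = v then f i else g i)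
          (fun a ha b hb ab => (List.idxOf_inj (hM a (mem_filter.1 ha).1)).1 (by simpa using ab))
          (fun j hj => by
            have := hs f g v j
            rw [e, if_pos (lt_min (hj.trans_le (H v)) (hj.trans_le (hl v)))] at this
            exact this.symm) i (mem_filter.2 ⟨hi, hv⟩)
      exact ⟨by simpa using z _ (.inl rfl), by simpa [hpq i (hM i hi)] using z _ (.inr rfl)⟩
  have := lmp_map hJ ((J.map p ++ J.map q) ×ˢ List.range J.length) (vec J u p) (vec J u q) fun i hi c hc => by
    constructor <;> refine if_neg fun h => hc (List.mem_product.2 ⟨?_, List.mem_range.2 (by omega)⟩)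
    · exact List.mem_append_left _ (List.mem_map.2 ⟨i, hi, h.1⟩)
    · exact List.mem_append_right _ (List.mem_map.2 ⟨i, hi, h.1⟩)
  rwa [show {k | ∃ M : Finset τ, (∀ i ∈ M, i ∈ J) ∧ (∀ v, dg p q M v ≤ u v) ∧ M.card = k} = _ from
    Set.ext fun k => exists_congr fun M => and_congr_right fun h => and_congr_left' (key M h).symm]

lemma shake {p q : τ → κ} {M : Finset τ} (hpq : ∀ e ∈ M, p e ≠ q e) {V : Finset κ}
    (hV : ∀ e ∈ M, p e ∈ V ∧ q e ∈ V) : ∑ v ∈ V, dg p q M v = 2 * M.card := by
  simp only [dg, card_filter]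
  rw [sum_comm, card_eq_sum_ones, mul_sum]
  refine sum_congr rfl fun e he => ?_
  have : V.filter (fun v => p e = v ∨ q e = v) = {p e, q e} := by
    ext v; simp only [mem_filter, mem_insert, mem_singleton]
    exact ⟨fun h => h.2.imp Eq.symm Eq.symm, by rintro (rfl | rfl) <;> simp [hV e he]⟩
  rw [← card_filter, this, card_pair (hpq e he), mul_one]

/-- a subgraph between K and U with prescribed degrees -/
def Btw (J : List τ) (p q : τ → κ) (K U : τ → Prop) (f : κ → ℕ) : Prop :=
  ∃ Y : Finset τ, (∀ e ∈ J, K e → e ∈ Y) ∧ (∀ e ∈ Y, e ∈ J ∧ U e) ∧ ∀ v, dg p q Y v = f v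

noncomputable def fl (J : List τ) (P : τ → Prop) : List τ := J.filter fun e => decide (P e)
noncomputable def cn (J : List τ) (P : τ → Prop) : ℕ := (fl J P).length

@[simp] lemma mem_fl {J : List τ} {P : τ → Prop} {e : τ} : e ∈ fl J P ↔ e ∈ J ∧ P e := by simp [fl]
lemma nodup_fl {J : List τ} (hJ : J.Nodup) (P : τ → Prop) : (fl J P).Nodup := hJ.filter _

lemma cn_eq {J : List τ} (hJ : J.Nodup) {P : τ → Prop} {S : Finset τ} (h : ∀ e, e ∈ S ↔ e ∈ J ∧ P e) :
    cn J P = S.card := by
  rw [cn, ← List.toFinset_card_of_nodup (nodup_fl hJ P)]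
  congr 1; ext e; simp [h]

lemma btw_iff {J : List τ} (hJ : J.Nodup) {p q : τ → κ} (hpq : ∀ e ∈ J, p e ≠ q e) (K U : τ → Prop)
    {f : κ → ℕ} {V : List κ} (hV : V.Nodup) (h1 : ∀ e ∈ J, p e ∈ V ∧ q e ∈ V) (h2 : ∀ v ∉ V, f v = 0) :
    Btw J p q K U f ↔ (∀ e ∈ J, K e → U e) ∧
      (∀ v ∈ V, cn J (fun e => K e ∧ (p e = v ∨ q e = v)) ≤ f v) ∧
      (V.map fun v => f v - cn J fun e => K e ∧ (p e = v ∨ q e = v)).sum ≤
        2 * mx (fl J fun e => U e ∧ ¬ K e) p q
          fun v => f v - cn J fun e => K e ∧ (p e = v ∨ q e = v) := by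
  have e : ∀ v, cn J (fun e => K e ∧ (p e = v ∨ q e = v)) = dg p q (J.toFinset.filter K) v :=
    fun v => cn_eq hJ (by simp [and_assoc])
  simp only [e]
  rw [← List.sum_toFinset _ hV]
  obtain ⟨⟨M, m1, m2, m3⟩, m4⟩ := mx_spec (nodup_fl hJ fun e => U e ∧ ¬ K e) (p := p) (q := q)
    (fun e he => hpq e (mem_fl.1 he).1) fun v => f v - dg p q (J.toFinset.filter K) v
  have u : ∀ (W : Finset τ) v, (∀ e ∈ W, ¬ K e) →
      dg p q (J.toFinset.filter K ∪ W) v = dg p q (J.toFinset.filter K) v + dg p q W v := fun W v hW => by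
    unfold dg
    rw [filter_union, card_union_of_disjoint]
    exact disjoint_left.2 fun a h h' => hW a (mem_filter.1 h').1 (mem_filter.1 (mem_filter.1 h).1).2
  have s : ∀ W : Finset τ, (∀ e ∈ W, e ∈ J) → ∑ v ∈ V.toFinset, dg p q W v = 2 * W.card := fun W hW =>
    shake (fun e he => hpq e (hW e he)) fun e he => by simpa using h1 e (hW e he)
  constructor
  · rintro ⟨Y, y1, y2, y3⟩
    have y : Y = J.toFinset.filter K ∪ Y.filter (¬ K ·) := by
      ext e; simp only [mem_union, mem_filter, List.mem_toFinset]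
      have := y1 e; have := y2 e; tauto
    have z : ∀ v, f v = dg p q (J.toFinset.filter K) v + dg p q (Y.filter (¬ K ·)) v := fun v => by
      rw [← u _ _ fun e he => (mem_filter.1 he).2, ← y, y3]
    refine ⟨fun e he hk => (y2 e (y1 e he hk)).2, fun v _ => by rw [z]; omega, ?_⟩
    refine le_trans (sum_le_sum fun v _ => ?_) ((s (Y.filter (¬ K ·)) fun e he => (y2 e (mem_filter.1 he).1).1).le.trans
      (Nat.mul_le_mul_left _ (m4 ⟨_, fun e he => ?_, fun v => ?_, rfl⟩)))
    · rw [z]; omega
    · have := y2 e (mem_filter.1 he).1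
      simp [this, (mem_filter.1 he).2]
    · rw [z]; omega
  · rintro ⟨a, b, c⟩
    have m1 : ∀ e ∈ M, e ∈ J ∧ U e ∧ ¬ K e := by simpa using m1
    rw [← m3, ← s M fun e he => (m1 e he).1] at c
    have d := (sum_eq_sum_iff_of_le fun v _ => m2 v).1 ((sum_le_sum fun v _ => m2 v).antisymm c)
    refine ⟨J.toFinset.filter K ∪ M, fun e he hk => by simp [he, hk], fun e he => ?_, fun v => ?_⟩
    · rcases mem_union.1 he with h | h
      · have := mem_filter.1 h
        exact ⟨List.mem_toFinset.1 this.1, a e (List.mem_toFinset.1 this.1) this.2⟩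
      · exact ⟨(m1 e h).1, (m1 e h).2.1⟩
    · rw [u _ _ fun e he => (m1 e he).2.2]
      by_cases hv : v ∈ V
      · have := d v (List.mem_toFinset.2 hv); have := b v hv; omega
      · have := m2 v
        have : dg p q (J.toFinset.filter K) v = 0 := card_eq_zero.2 (filter_eq_empty_iff.2 fun e he h => by
          have := h1 e (List.mem_toFinset.1 (mem_filter.1 he).1)
          rcases h with rfl | rfl <;> tauto)
        have := h2 v hv; omega

variable {α : Type} [Enc α] [Enc τ] [Enc κ]

@[fun_prop] lemma pt_fl {J : α → List τ} {P : α → τ → Prop} (hJ : PT J)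
    (hP : PT fun x : α × τ => @decide (P x.1 x.2) (propDecidable _)) : PT fun a => fl (J a) (P a) :=
  PT.filter hP hJ

@[fun_prop] lemma pt_cn {J : α → List τ} {P : α → τ → Prop} (hJ : PT J)
    (hP : PT fun x : α × τ => @decide (P x.1 x.2) (propDecidable _)) : PT fun a => cn (J a) (P a) :=
  (pt_fl hJ hP).length

lemma pt_mx {J : α → List τ} {p q : τ → κ} {u : α → κ → ℕ} (hJ : PT J) (hp : PT p) (hq : PT q)
    (hu : PT fun x : α × κ => u x.1 x.2) : PT fun a => mx (J a) p q (u a) := by
  unfold mx vec; fun_prop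

lemma pd_congr {p q : α → Prop} {i : ∀ a, Decidable (p a)} {j : ∀ a, Decidable (q a)}
    (h : PT fun a => @decide (q a) (j a)) (e : ∀ a, p a ↔ q a) : PT fun a => @decide (p a) (i a) :=
  h.congr fun a => decide_eq_decide.2 (e a)

lemma pt_btw {J : α → List τ} {p q : τ → κ} {K U : α → τ → Prop} {f : α → κ → ℕ} {V : α → List κ}
    (hJ : PT J) (hp : PT p) (hq : PT q) (hK : PT fun x : α × τ => decide (K x.1 x.2))
    (hU : PT fun x : α × τ => decide (U x.1 x.2)) (hf : PT fun x : α × κ => f x.1 x.2) (hV : PT V)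
    (nJ : ∀ a, (J a).Nodup) (hpq : ∀ a, ∀ e ∈ J a, p e ≠ q e) (nV : ∀ a, (V a).Nodup)
    (h1 : ∀ a, ∀ e ∈ J a, p e ∈ V a ∧ q e ∈ V a) (h2 : ∀ a, ∀ v ∉ V a, f a v = 0) :
    PT fun a => decide (Btw (J a) p q (K a) (U a) (f a)) := by
  obtain ⟨K', hK, rfl⟩ : ∃ K' : α → τ → Bool, (PT fun x : α × τ => K' x.1 x.2) ∧ K = fun a e => K' a e = true :=
    ⟨fun a e => decide (K a e), hK, by simp⟩
  obtain ⟨U', hU, rfl⟩ : ∃ U' : α → τ → Bool, (PT fun x : α × τ => U' x.1 x.2) ∧ U = fun a e => U' a e = true :=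
    ⟨fun a e => decide (U a e), hU, by simp⟩
  have := pt_mx (J := fun a => fl (J a) fun e => U' a e = true ∧ ¬ K' a e = true) (u := fun a v =>
    f a v - cn (J a) fun e => K' a e = true ∧ (p e = v ∨ q e = v)) (by fun_prop) hp hq (by fun_prop)
  exact pd_congr (j := fun _ => inferInstance) (PT.decide_and (i := fun _ => inferInstance)
    (j := fun _ => inferInstance) (by fun_prop) (PT.decide_and (i := fun _ => inferInstance)
    (j := fun _ => inferInstance) (by fun_prop) (PT.decide_le (by fun_prop) ((PT.const 2).mul this))))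
    fun a => btw_iff (nJ a) (hpq a) _ _ (nV a) (h1 a) (h2 a)

end

section
variable {β : Type}

/-- greedy maximal set for an antitone property -/
noncomputable def gr (P : List β → Prop) (L : List β) : List β :=
  L.foldl (fun B x => if P (x :: B) then x :: B else B) []

lemma gr_spec {P : List β → Prop} (anti : ∀ B B', B ⊆ B' → P B' → P B) (h0 : P []) (L : List β) :
    P (gr P L) ∧ ∀ x ∈ L, P (x :: gr P L) → x ∈ gr P L := by
  suffices ∀ B, P B → let G := L.foldl (fun B x => if P (x :: B) then x :: B else B) B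
      B ⊆ G ∧ P G ∧ ∀ x ∈ L, P (x :: G) → x ∈ G from (this [] h0).2
  induction L with
  | nil => exact fun B h => ⟨List.Subset.refl _, h, by simp⟩
  | cons y L ih =>
    intro B hB
    simp only [List.foldl_cons]
    split_ifs with h
    · obtain ⟨a, b, c⟩ := ih _ h
      exact ⟨List.Subset.trans (List.subset_cons_self _ _) a, b, fun x hx hp => (List.mem_cons.1 hx).elim
        (fun e => e ▸ a List.mem_cons_self) fun hx => c x hx hp⟩
    · obtain ⟨a, b, c⟩ := ih _ hB
      exact ⟨a, b, fun x hx hp => (List.mem_cons.1 hx).elim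
        (fun e => (h (anti _ _ (List.cons_subset_cons _ a) (e ▸ hp))).elim) fun hx => c x hx hp⟩

lemma pt_gr {α : Type} [Enc α] [Enc β] {P : α → List β → Prop} {L : α → List β} (hL : PT L)
    (hP : PT fun x : α × List β => decide (P x.1 x.2)) : PT fun a => gr (P a) (L a) :=
  PT.foldl_add (D := fun a => size (L a) + 1)
    (PT.ite (hP.comp (g := fun x : α × List β × β => (x.1, x.2.2 :: x.2.1)) (by fun_prop)) (by fun_prop)
      (by fun_prop)) (by fun_prop) hL (by fun_prop) fun a s x hx => by
    have := size_mem hx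
    split_ifs <;> simp; omega

end

end Pool.Agent.H.MP_00b752_lc
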