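import Pool.Agent.H.MP_00b752_lc.Defs
import Pool.Agent.H.MP_00b752_lc.A

set_option autoImplicit false

namespace Pool.Agent.H.MP_00b752_lc

open Pool.Agent.Lib.CX Finset Classical

def n (I : In) : ℕ := I.length + 1
def R (I : In) : ℕ := (I.flatMap (·.2)).length
def c (I : In) (a : ℕ) : ℕ := max 1 (cap I a)
noncomputable def L (I : In) : List (ℕ × ℕ) := fl (List.range (n I) ×ˢ List.range (n I)) fun e => Edge I e.1 e.2
def en (i : Bool) (e : ℕ × ℕ) : ℕ := bif i then e.2 else e.1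
def ρ (I : In) (i : Bool) (e : ℕ × ℕ) : ℕ := rk I (en i e) (en (!i) e)
abbrev Th := Bool → ℕ → ℕ
def al (I : In) (τ : Th) (e : ℕ × ℕ) : Prop := ∀ i, ρ I i e ≤ τ i (en i e)
def fo (I : In) (τ : Th) (e : ℕ × ℕ) : Prop := al I τ e ∧ ∃ i, ρ I i e < τ i (en i e)
def N (i : Bool) (Y : Finset (ℕ × ℕ)) (a : ℕ) : Finset (ℕ × ℕ) := Y.filter (en i · = a)
def pr (s t : ℕ → ℕ) (i : Bool) (a : ℕ) : ℕ := bif i then t a else s a

structure Sol (I : In) (τ : Th) (Y : Finset (ℕ × ℕ)) : Prop where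
  sub : ∀ e ∈ Y, e ∈ L I
  al : ∀ e ∈ Y, al I τ e
  fo : ∀ e ∈ L I, fo I τ e → e ∈ Y
  le : ∀ i a, τ i a ≤ R I
  full : ∀ i a, τ i a < R I → (N i Y a).card = c I a
  nrm : ∀ i a, ((N i Y a).filter fun e => ρ I i e < τ i a).card < c I a

variable {I : In} {τ τ' : Th} {Y Y' : Finset (ℕ × ℕ)} {e : ℕ × ℕ}

@[simp] lemma en_t : en true e = e.2 := rfl
@[simp] lemma en_f : en false e = e.1 := rfl
@[simp] lemma pr_t {s t : ℕ → ℕ} : pr s t true = t := rfl
@[simp] lemma pr_f {s t : ℕ → ℕ} : pr s t false = s := rfl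
@[simp] lemma mem_N {i a} : e ∈ N i Y a ↔ e ∈ Y ∧ en i e = a := mem_filter
lemma c_pos (a : ℕ) : 0 < c I a := by unfold c; omega
lemma Edge.symm {a b} (h : Edge I a b) : Edge I b a := ⟨h.1.symm, h.2.2, h.2.1⟩
lemma Edge.lt {a b} (h : Edge I a b) : a < I.length := by
  by_contra! k
  have := h.2.1
  rw [pref, List.getD_eq_default _ _ k] at this
  simp at this
lemma Edge.rk {a b} (h : Edge I a b) : rk I a b < R I := by
  obtain ⟨l, h1, h2⟩ := List.mem_flatten.1 h.2.1
  refine (List.findIdx_lt_length_of_exists ⟨l, h1, by simpa using h2⟩).trans_le ?_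
  rw [pref, List.getD_eq_getElem _ _ h.lt]
  exact (List.sublist_flatten_of_mem (List.mem_map_of_mem (List.getElem_mem _))).length_le
lemma mem_L : e ∈ L I ↔ Edge I e.1 e.2 := by
  obtain ⟨a, b⟩ := e
  simp only [L, mem_fl, List.mem_product, List.mem_range, n, and_iff_right_iff_imp]
  exact fun h => ⟨by have := h.lt; omega, by have := h.symm.lt; omega⟩
lemma nodup_L : (L I).Nodup := nodup_fl (List.nodup_range.product List.nodup_range) _
lemma en_lt (h : e ∈ L I) (i : Bool) : en i e < n I := by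
  have h := mem_L.1 h
  have := h.lt; have := h.symm.lt
  cases i <;> simp [n] <;> omega
lemma ρ_lt (h : e ∈ L I) (i : Bool) : ρ I i e < R I := by
  have h := mem_L.1 h
  cases i
  exacts [h.rk, h.symm.rk]
lemma swap_L (h : e ∈ L I) : e.swap ∈ L I := mem_L.2 (mem_L.1 h).symm
lemma al_iff : al I τ e ↔ ρ I false e ≤ τ false e.1 ∧ ρ I true e ≤ τ true e.2 := by simp [al]
lemma fo_iff : fo I τ e ↔ (ρ I false e ≤ τ false e.1 ∧ ρ I true e ≤ τ true e.2) ∧
    (ρ I false e < τ false e.1 ∨ ρ I true e < τ true e.2) := by simp [fo, al]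

lemma Sol.deg (h : Sol I τ Y) (i : Bool) (a : ℕ) : (N i Y a).card ≤ c I a := by
  rcases (h.le i a).lt_or_eq with k | k
  · exact (h.full i a k).le
  · have := h.nrm i a
    rw [filter_true_of_mem fun e he => k ▸ ρ_lt (h.sub e (mem_N.1 he).1) i] at this
    exact this.le

lemma Sol.big (h : Sol I τ Y) (i : Bool) {a : ℕ} (ha : n I ≤ a) : τ i a = R I :=
  (h.le i a).antisymm (not_lt.1 fun k => by
    obtain ⟨e, he⟩ := card_pos.1 ((c_pos a).trans_eq (h.full i a k).symm)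
    have := en_lt (h.sub e (mem_N.1 he).1) i
    have := (mem_N.1 he).2
    omega)

lemma fib (i : Bool) {X X' : Finset (ℕ × ℕ)} (h : ∀ a, (N i X a).card ≤ (N i X' a).card) :
    X.card ≤ X'.card ∧ (X'.card ≤ X.card → ∀ a, (N i X a).card = (N i X' a).card) := by
  have e1 := card_eq_sum_card_fiberwise (s := X) (t := (X ∪ X').image (en i)) (f := en i)
    fun e he => mem_coe.2 (mem_image_of_mem _ (mem_union_left _ he))
  have e2 := card_eq_sum_card_fiberwise (s := X') (t := (X ∪ X').image (en i)) (f := en i)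
    fun e he => mem_coe.2 (mem_image_of_mem _ (mem_union_right _ he))
  have e3 : X.card ≤ X'.card := by rw [e1, e2]; exact sum_le_sum fun a _ => h a
  refine ⟨e3, fun k a => ?_⟩
  by_cases ha : a ∈ (X ∪ X').image (en i)
  · exact (sum_eq_sum_iff_of_le fun a _ => h a).1 (e1.symm.trans ((e3.antisymm k).trans e2)) a ha
  · refine (h a).antisymm ((card_eq_zero.2 (filter_eq_empty_iff.2 fun e he k => ha ?_)).trans_le (Nat.zero_le _))
    exact k ▸ mem_image_of_mem _ (mem_union_right _ he)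

def nL (τ τ' : Th) (e : ℕ × ℕ) : ℕ := ∑ i : Bool, if τ' i (en i e) < τ i (en i e) then 1 else 0

lemma half (h : Sol I τ Y) (h' : Sol I τ' Y') :
    ∑ e ∈ Y \ Y', nL τ τ' e ≤ ∑ e ∈ Y' \ Y, nL τ τ' e ∧ ∀ e ∈ Y \ Y', nL τ' τ e ≤ nL τ τ' e := by
  constructor
  · have : ∑ e ∈ Y, nL τ τ' e ≤ ∑ e ∈ Y', nL τ τ' e := by
      unfold nL
      rw [sum_comm, sum_comm (s := Y')]
      refine sum_le_sum fun i _ => ?_
      rw [← card_filter, ← card_filter]
      refine (fib i fun a => ?_).1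
      by_cases k : τ' i a < τ i a
      · refine (card_le_card fun e he => ?_).trans ((h.deg i a).trans
          ((h'.full i a (k.trans_le (h.le i a))).symm.trans_le (card_le_card fun e he => ?_)))
        · simp only [mem_N, mem_filter] at he ⊢; tauto
        · simp only [mem_N, mem_filter] at he ⊢; exact ⟨⟨he.1, he.2 ▸ k⟩, he.2⟩
      · refine (card_eq_zero.2 (filter_eq_empty_iff.2 fun e he k' => k ?_)).trans_le (Nat.zero_le _)
        exact k' ▸ (mem_filter.1 he).2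
    rw [← sum_inter_add_sum_sdiff Y Y', ← sum_inter_add_sum_sdiff Y' Y, inter_comm Y'] at this
    omega
  · intro e he
    have h1 := al_iff.1 (h.al e (mem_sdiff.1 he).1)
    have h2 := mt fo_iff.2 (mt (h'.fo e (h.sub e (mem_sdiff.1 he).1)) (mem_sdiff.1 he).2)
    simp only [nL, Fintype.sum_bool, en_t, en_f]
    split_ifs <;> omega

lemma opp (h : Sol I τ Y) (h' : Sol I τ' Y') (he : ¬ (e ∈ Y ↔ e ∈ Y')) :
    (τ false e.1 = τ' false e.1 ∧ τ true e.2 = τ' true e.2) ∨
    (τ false e.1 < τ' false e.1 ∧ τ' true e.2 < τ true e.2) ∨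
    (τ' false e.1 < τ false e.1 ∧ τ true e.2 < τ' true e.2) := by
  obtain ⟨a1, a2⟩ := half h h'
  obtain ⟨b1, b2⟩ := half h' h
  have a3 := sum_le_sum a2
  have b3 := sum_le_sum b2
  have : nL τ' τ e = nL τ τ' e := by
    by_cases k : e ∈ Y
    · exact (sum_eq_sum_iff_of_le a2).1 (by omega) e (mem_sdiff.2 ⟨k, by tauto⟩)
    · exact ((sum_eq_sum_iff_of_le b2).1 (by omega) e (mem_sdiff.2 ⟨by tauto, k⟩)).symm
  simp only [nL, Fintype.sum_bool, en_t, en_f] at this
  split_ifs at this <;> omega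

lemma mix (h : Sol I τ Y) (h' : Sol I τ' Y') (U : Bool → ℕ → Prop)
    (hU : ∀ e, ¬ (e ∈ Y ↔ e ∈ Y') → (U false e.1 ↔ U true e.2)) {σ : Th}
    (hσ : ∀ i a, σ i a = if U i a then τ' i a else τ i a)
    (hf : ∀ e, ¬ (U false e.1 ↔ U true e.2) → fo I σ e → fo I τ e ∨ fo I τ' e) :
    ∃ Z, Sol I σ Z ∧ ∀ i a, N i Z a = if U i a then N i Y' a else N i Y a := by
  let Z := Y'.filter (U false ·.1) ∪ Y.filter (¬ U false ·.1)
  have k : ∀ i e, e ∈ Z ↔ if U i (en i e) then e ∈ Y' else e ∈ Y := fun i e => by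
    have := hU e
    simp only [Z, mem_union, mem_filter]
    cases i <;> simp only [en_t, en_f] <;> split_ifs <;> tauto
  have k2 : ∀ i a, N i Z a = if U i a then N i Y' a else N i Y a := fun i a => by
    ext e
    have := k i e
    split_ifs with u <;> simp only [mem_N] <;> refine and_congr_left fun q => ?_ <;> subst q <;> simpa [u] using this
  refine ⟨Z, ⟨fun e he => ?_, fun e he i => ?_, fun e he f => ?_, fun i a => ?_, fun i a => ?_, fun i a => ?_⟩, k2⟩
  · rcases mem_union.1 he with q | q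
    exacts [h'.sub e (mem_filter.1 q).1, h.sub e (mem_filter.1 q).1]
  · have := (k i e).1 he
    rw [hσ]; split_ifs at this ⊢
    exacts [h'.al e this i, h.al e this i]
  · rw [k false]
    by_cases u : U false e.1 ↔ U true e.2
    · rw [fo_iff, hσ, hσ] at f
      simp only [en_f]
      split_ifs with v
      · exact h'.fo e he (fo_iff.2 (by simpa [v, u.1 v] using f))
      · exact h.fo e he (fo_iff.2 (by simpa [v, mt u.2 v] using f))
    · have := mt (hU e) u
      have := (hf e u f).imp (h.fo e he) (h'.fo e he)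
      split_ifs <;> tauto
  · rw [hσ]; split_ifs
    exacts [h'.le i a, h.le i a]
  · rw [hσ, k2]; split_ifs
    exacts [h'.full i a, h.full i a]
  · rw [hσ, k2]; split_ifs
    exacts [h'.nrm i a, h.nrm i a]

lemma Sol.swap (h : Sol I τ Y) : Sol I (fun i => τ (!i)) (Y.map (Equiv.prodComm _ _).toEmbedding) := by
  have k : ∀ i a, N i (Y.map (Equiv.prodComm _ _).toEmbedding) a =
      (N (!i) Y a).map (Equiv.prodComm _ _).toEmbedding := fun i a => by
    ext e; cases i <;> simp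
  have r : ∀ i e, ρ I i e = ρ I (!i) e.swap := fun i e => by cases i <;> rfl
  refine ⟨fun e he => ?_, fun e he => ?_, fun e he f => ?_, fun i a => h.le _ a, fun i a q => ?_, fun i a => ?_⟩
  · simpa using swap_L (h.sub _ (mem_map_equiv.1 he))
  · have := al_iff.1 (h.al _ (mem_map_equiv.1 he))
    exact al_iff.2 ⟨this.2, this.1⟩
  · have := fo_iff.1 f
    exact mem_map_equiv.2 (h.fo _ (swap_L he) (fo_iff.2 ⟨this.1.symm, this.2.symm⟩))
  · rw [k, card_map]; exact h.full _ a q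
  · rw [k, filter_map, card_map]
    refine lt_of_eq_of_lt ?_ (h.nrm (!i) a)
    congr 1; ext e; cases i <;> rfl

noncomputable def sg (I : In) (t : ℕ → ℕ) (a : ℕ) : ℕ :=
  cn (List.range (R I)) fun r => cn (L I) (fun e => e.1 = a ∧ ρ I false e ≤ r ∧ ρ I true e ≤ t e.2) < c I a

noncomputable def A (I : In) (P : ℕ × ℕ → Prop) : Finset (ℕ × ℕ) := (L I).toFinset.filter P
@[simp] lemma mem_A {P} : e ∈ A I P ↔ e ∈ L I ∧ P e := by simp [A]
lemma cn_A (P : ℕ × ℕ → Prop) : cn (L I) P = (A I P).card := cn_eq nodup_L fun _ => mem_A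

variable {s t t' w : ℕ → ℕ}

lemma lt_sg {a r : ℕ} : r < sg I t a ↔
    r < R I ∧ (A I fun e => e.1 = a ∧ ρ I false e ≤ r ∧ ρ I true e ≤ t e.2).card < c I a := by
  simp only [sg, cn_A]
  rw [cn_eq List.nodup_range (S := (range (R I)).filter fun r =>
    (A I fun e => e.1 = a ∧ ρ I false e ≤ r ∧ ρ I true e ≤ t e.2).card < c I a) (by simp)]
  have m : ∀ {r q}, r ≤ q → (A I fun e => e.1 = a ∧ ρ I false e ≤ r ∧ ρ I true e ≤ t e.2).card ≤
      (A I fun e => e.1 = a ∧ ρ I false e ≤ q ∧ ρ I true e ≤ t e.2).card := fun h =>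
    card_le_card fun e he => by simp only [mem_A] at he ⊢; exact ⟨he.1, he.2.1, he.2.2.1.trans h, he.2.2.2⟩
  constructor
  · intro h
    by_contra k
    refine h.not_ge ((card_le_card fun q hq => mem_range.2 (not_le.1 fun z => k ?_)).trans_eq (card_range r))
    have := mem_filter.1 hq
    exact ⟨z.trans_lt (mem_range.1 this.1), (m z).trans_lt this.2⟩
  · intro h
    refine (card_range (r + 1)).symm.trans_le (card_le_card fun q hq => ?_)
    have := mem_range.1 hq
    exact mem_filter.2 ⟨mem_range.2 (by omega), (m (by omega)).trans_lt h.2⟩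

lemma sg_le (a : ℕ) : sg I t a ≤ R I := not_lt.1 fun h => (lt_sg.1 h).1.false
lemma sg_anti (h : t ≤ t') : sg I t' ≤ sg I t := fun a => le_of_forall_lt fun r hr =>
  lt_sg.2 ⟨(lt_sg.1 hr).1, (card_le_card fun e he => by
    simp only [mem_A] at he ⊢; exact ⟨he.1, he.2.1, he.2.2.1, he.2.2.2.trans (h _)⟩).trans_lt (lt_sg.1 hr).2⟩
lemma A_big {P : ℕ × ℕ → Prop} {a : ℕ} (i : Bool) (ha : n I ≤ a) (h : ∀ e, P e → en i e = a) : (A I P).card = 0 :=
  card_eq_zero.2 (eq_empty_of_forall_notMem fun e he => by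
    have := en_lt (mem_A.1 he).1 i
    have := h e (mem_A.1 he).2
    omega)
lemma sg_big {a : ℕ} (ha : n I ≤ a) : sg I t a = R I := (sg_le a).antisymm (le_of_forall_lt fun r hr =>
  lt_sg.2 ⟨hr, (A_big false ha fun _ h => h.1).trans_lt (c_pos a)⟩)

lemma Sol.sig (h : Sol I τ Y) : τ false = sg I (τ true) := funext fun a => eq_of_forall_lt_iff fun r => by
  rw [lt_sg]
  constructor
  · refine fun k => ⟨k.trans_le (h.le _ a), (card_le_card fun e he => ?_).trans_lt (h.nrm false a)⟩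
    obtain ⟨h1, rfl, h2, h3⟩ := mem_A.1 he
    exact mem_filter.2 ⟨mem_N.2 ⟨h.fo e h1 (fo_iff.2 (by omega)), rfl⟩, by omega⟩
  · rintro ⟨k1, k2⟩
    by_contra! k
    refine k2.not_ge ((h.full false a (by omega)).symm.trans_le (card_le_card fun e he => ?_))
    obtain ⟨h1, rfl⟩ := mem_N.1 he
    have := al_iff.1 (h.al e h1)
    exact mem_A.2 ⟨h.sub e h1, rfl, this.1.trans k, this.2⟩

def Feas (I : In) (t : ℕ → ℕ) : Prop := ∃ Y, Sol I (pr (sg I t) t) Y

lemma Sol.feas (h : Sol I (pr s t) Y) : Feas I t ∧ sg I t = s := by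
  obtain rfl : s = sg I t := h.sig
  exact ⟨⟨Y, h⟩, rfl⟩

lemma Feas.meet (h : Feas I t) (h' : Feas I t') : Feas I (t ⊓ t') ∧ sg I (t ⊓ t') = sg I t ⊔ sg I t' := by
  obtain ⟨Y, h⟩ := h
  obtain ⟨Y', h'⟩ := h'
  obtain ⟨Z, z, -⟩ := mix h h' (fun i a => bif i then t' a < t a else sg I t a < sg I t' a)
    (fun e he => by have := opp h h' he; simp at this ⊢; omega) (σ := pr (sg I t ⊔ sg I t') (t ⊓ t'))
    (fun i a => by cases i <;> simp <;> split_ifs <;> omega) fun e h1 h2 => by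
      simp only [fo_iff, pr_t, pr_f, Pi.sup_apply, Pi.inf_apply, cond_true, cond_false] at h1 h2 ⊢; omega
  exact z.feas

lemma Feas.join (h : Feas I t) (h' : Feas I t') : Feas I (t ⊔ t') ∧ sg I (t ⊔ t') = sg I t ⊓ sg I t' := by
  obtain ⟨Y, h⟩ := h
  obtain ⟨Y', h'⟩ := h'
  obtain ⟨Z, z, -⟩ := mix h h' (fun i a => bif i then t a < t' a else sg I t' a < sg I t a)
    (fun e he => by have := opp h h' he; simp at this ⊢; omega) (σ := pr (sg I t ⊓ sg I t') (t ⊔ t'))
    (fun i a => by cases i <;> simp <;> split_ifs <;> omega) fun e h1 h2 => by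
      simp only [fo_iff, pr_t, pr_f, Pi.sup_apply, Pi.inf_apply, cond_true, cond_false] at h1 h2 ⊢; omega
  exact z.feas

lemma Feas.le (h : Feas I t) (a : ℕ) : t a ≤ R I := h.choose_spec.le true a
lemma Feas.big (h : Feas I t) {a : ℕ} (ha : n I ≤ a) : t a = R I := h.choose_spec.big true ha

lemma meet_all (hR : ∀ a, n I ≤ a → t a = R I)
    (h : ∀ b < n I, ∃ g, Feas I g ∧ t ≤ g ∧ g b ≤ t b ∧ sg I g ≤ w) : Feas I t ∧ sg I t ≤ w := by
  have : ∀ k ≤ n I, ∃ g, Feas I g ∧ t ≤ g ∧ (∀ b < k, g b ≤ t b) ∧ sg I g ≤ w := fun k => by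
    induction k with
    | zero => exact fun _ => (h 0 (Nat.succ_pos _)).imp fun g k => ⟨k.1, k.2.1, by simp, k.2.2.2⟩
    | succ k ih =>
      intro hk
      obtain ⟨g, g1, g2, g3, g4⟩ := ih (by omega)
      obtain ⟨f, f1, f2, f3, f4⟩ := h k hk
      refine ⟨g ⊓ f, (g1.meet f1).1, le_inf g2 f2, fun b hb => ?_, (g1.meet f1).2.trans_le (sup_le g4 f4)⟩
      rcases (Nat.le_of_lt_succ hb).lt_or_eq with q | rfl
      exacts [inf_le_left.trans (g3 b q), inf_le_right.trans f3]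
  obtain ⟨g, g1, g2, g3, g4⟩ := this _ le_rfl
  obtain rfl : t = g := g2.antisymm fun b => (lt_or_ge b (n I)).elim (g3 b) fun q => (g1.le b).trans_eq (hR b q).symm
  exact ⟨g1, g4⟩

lemma join_all (hR : ∀ a, t a ≤ R I) (h : ∀ b < n I, ∃ g, Feas I g ∧ t b ≤ g b ∧ w ≤ sg I g) :
    w ≤ sg I t := by
  have : ∀ k ≤ n I, ∃ g, Feas I g ∧ (∀ b < k, t b ≤ g b) ∧ w ≤ sg I g := fun k => by
    induction k with
    | zero => exact fun _ => (h 0 (Nat.succ_pos _)).imp fun g k => ⟨k.1, by simp, k.2.2⟩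
    | succ k ih =>
      intro hk
      obtain ⟨g, g1, g3, g4⟩ := ih (by omega)
      obtain ⟨f, f1, f3, f4⟩ := h k hk
      refine ⟨g ⊔ f, (g1.join f1).1, fun b hb => ?_, (le_inf g4 f4).trans_eq (g1.join f1).2.symm⟩
      rcases (Nat.le_of_lt_succ hb).lt_or_eq with q | rfl
      exacts [(g3 b q).trans le_sup_left, f3.trans le_sup_right]
  obtain ⟨g, g1, g3, g4⟩ := this _ le_rfl
  exact g4.trans (sg_anti fun b => (lt_or_ge b (n I)).elim (g3 b) fun q => (hR b).trans_eq (g1.big q).symm)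

end Pool.Agent.H.MP_00b752_lc
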