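import Pool.Agent.H.MP_00b752_lc.B

set_option autoImplicit false

namespace Pool.Agent.H.MP_00b752_lc

open Pool.Agent.Lib.CX Finset Classical

def op (I : In) (τ : Th) (e : ℕ × ℕ) : Prop := ∀ i, ρ I i e = τ i (en i e)
noncomputable def ph (I : In) (τ : Th) (i : Bool) (a : ℕ) : ℕ := cn (L I) fun e => en i e = a ∧ fo I τ e
noncomputable def pl (I : In) (τ : Th) (i : Bool) (a : ℕ) : ℕ :=
  cn (L I) fun e => en i e = a ∧ al I τ e ∧ ρ I i e < τ i a
noncomputable def dm (I : In) (τ : Th) (B : ℕ → Prop) (a : ℕ) : ℕ :=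
  if ¬ B a ∧ τ false a < R I then c I a - ph I τ false a else 0
def fz (I : In) (τ : Th) (B : ℕ → Prop) : Prop := ∃ W : Finset (ℕ × ℕ), (∀ e ∈ W, e ∈ L I ∧ op I τ e) ∧
  (∀ a, (N false W a).card = dm I τ B a) ∧ ∀ b, (N true W b).card ≤ c I b - ph I τ true b
noncomputable def bs (I : In) (τ : Th) : List ℕ := gr (fun B => ¬ fz I τ (· ∈ B)) (List.range (n I))
def rule (I : In) (τ : Th) (b : ℕ) : Prop := c I b < ph I τ true b ∨ c I b ≤ pl I τ true b ∨
  (¬ fz I τ (· ∈ ([] : List ℕ)) ∧ c I b - ph I τ true b < cn (L I) fun e => e.2 = b ∧ op I τ e ∧ e.1 ∉ bs I τ)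

variable {I : In} {τ τ' : Th} {Y Y' : Finset (ℕ × ℕ)} {e : ℕ × ℕ} {t t' : ℕ → ℕ}

lemma op_iff : op I τ e ↔ ρ I false e = τ false e.1 ∧ ρ I true e = τ true e.2 := by simp [op]

lemma trim (X : Finset (ℕ × ℕ)) (k : ℕ → ℕ) (h : ∀ a, k a ≤ (N false X a).card) :
    ∃ W ⊆ X, ∀ a, (N false W a).card = k a := by
  choose S h1 h2 using fun a => exists_subset_card_eq (h a)
  refine ⟨X.filter fun e => e ∈ S e.1, filter_subset _ _, fun a => (congrArg card ?_).trans (h2 a)⟩
  ext e
  simp only [mem_N, mem_filter, en_f]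
  exact ⟨fun h => h.2 ▸ h.1.2, fun h => by
    have := mem_N.1 (h1 a h); have k : e.1 = a := this.2; exact ⟨⟨this.1, k.symm ▸ h⟩, k⟩⟩

lemma fz.mono {B B' : ℕ → Prop} (h : fz I τ B) (k : ∀ a, B a → B' a) : fz I τ B' := by
  obtain ⟨W, w1, w2, w3⟩ := h
  obtain ⟨Z, z1, z2⟩ := trim W (dm I τ B') fun a => by
    rw [w2, dm, dm]; have := k a; split_ifs <;> first | omega | tauto
  exact ⟨Z, fun e he => w1 e (z1 he), z2, fun b => (card_le_card (filter_subset_filter _ z1)).trans (w3 b)⟩

lemma bs_spec (h : ¬ fz I τ (· ∈ ([] : List ℕ))) :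
    ¬ fz I τ (· ∈ bs I τ) ∧ ∀ a < n I, a ∉ bs I τ → fz I τ (· ∈ a :: bs I τ) := by
  have := gr_spec (P := fun B => ¬ fz I τ (· ∈ B)) (fun B B' k h' h => h' (h.mono fun _ q => k q)) h
    (List.range (n I))
  exact ⟨this.1, fun a ha k => not_not.1 (mt (this.2 a (List.mem_range.2 ha)) k)⟩

lemma card_le_add {S T U : Finset (ℕ × ℕ)} (h : ∀ e ∈ S, e ∈ T ∨ e ∈ U) : S.card ≤ T.card + U.card :=
  (card_le_card fun e he => mem_union.2 (h e he)).trans (card_union_le _ _)
lemma add_le_card {S T U : Finset (ℕ × ℕ)} (h : ∀ e ∈ T, e ∉ U) (h1 : T ⊆ S) (h2 : U ⊆ S) :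
    T.card + U.card ≤ S.card := by
  rw [← card_union_of_disjoint (disjoint_left.2 h)]; exact card_le_card (union_subset h1 h2)

lemma must (h : Feas I t') (ht : t' ≤ t) {b : ℕ} (hb : rule I (pr (sg I t) t) b) : t' b < t b := by
  obtain ⟨Y, h⟩ := h
  have hs := sg_anti (I := I) ht
  set s := sg I t
  set s' := sg I t'
  have k1 : ∀ e ∈ L I, t' e.2 = t e.2 → al I (pr s t) e → s e.1 < s' e.1 ∨ fo I (pr s t) e → e ∈ Y :=
    fun e he k a f => h.fo e he (by
      have : s e.1 ≤ s' e.1 := hs e.1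
      simp only [fo_iff, al_iff, pr_t, pr_f] at a f ⊢; omega)
  have k2 : ∀ b, t' b = t b → ∀ X : Finset (ℕ × ℕ), (∀ e ∈ X, e ∈ N true Y b ∧ op I (pr s t) e) →
      X.card ≤ c I b - ph I (pr s t) true b := fun b k X hX => by
    have := add_le_card (S := N true Y b) (T := X) (U := A I fun e => en true e = b ∧ fo I (pr s t) e)
      (fun e he q => by
        have := op_iff.1 (hX e he).2; have := fo_iff.1 (mem_A.1 q).2.2; omega) (fun e he => (hX e he).1)
      fun e he => by
        obtain ⟨q1, rfl, q2⟩ := mem_A.1 he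
        exact mem_N.2 ⟨k1 e q1 k q2.1 (.inr q2), rfl⟩
    have := h.deg true b
    rw [ph, cn_A]; omega
  by_contra! k
  have k := (ht b).antisymm k
  rcases hb with hb | hb | ⟨h0, hb⟩
  · have := h.deg true b
    refine hb.not_ge (le_trans ?_ this)
    rw [ph, cn_A]
    refine card_le_card fun e he => ?_
    obtain ⟨q1, rfl, q2⟩ := mem_A.1 he
    exact mem_N.2 ⟨k1 e q1 k q2.1 (.inr q2), rfl⟩
  · refine (h.nrm true b).not_ge (hb.trans ?_)
    rw [pl, cn_A]
    refine card_le_card fun e he => ?_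
    obtain ⟨q1, rfl, q2, q3⟩ := mem_A.1 he
    exact mem_filter.2 ⟨mem_N.2 ⟨k1 e q1 k q2 (.inr ⟨q2, true, q3⟩), rfl⟩, q3.trans_eq k.symm⟩
  obtain ⟨b1, b2⟩ := bs_spec h0
  set B := bs I (pr s t)
  have oa : ∀ {e}, op I (pr s t) e → al I (pr s t) e := fun h i => (h i).le
  have k3 : ∀ a < n I, a ∉ B → s a < s' a := fun a ha aB => (hs a).lt_of_ne fun q => b1 <| by
    obtain ⟨W, w1, w2, w3⟩ := (b2 a ha aB).mono (B' := fun a => a ∈ B ∨ s a = s' a) fun x hx =>
      (List.mem_cons.1 hx).elim (fun e => .inr (e ▸ q)) .inl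
    obtain ⟨Z, z1, z2⟩ := trim (Y.filter (op I (pr s t))) (dm I (pr s t) fun a => a ∈ B ∨ s a ≠ s' a) fun a => by
      rw [dm]; split_ifs with q
      · have q1 : s a = s' a := by tauto
        have := h.full false a (q1.symm.trans_lt q.2)
        have := card_le_add (S := N false Y a) (T := N false (Y.filter (op I (pr s t))) a)
          (U := A I fun e => en false e = a ∧ fo I (pr s t) e) fun e he => by
            obtain ⟨q2, rfl⟩ := mem_N.1 he
            have := al_iff.1 (h.al e q2)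
            have := ht e.2
            simp only [mem_N, mem_filter, mem_A, q2, h.sub e q2, op_iff, fo_iff, pr_t, pr_f, en_f, true_and,
              and_true] at *
            omega
        rw [ph, cn_A]; omega
      · exact Nat.zero_le _
    have w4 : ∀ e ∈ W, s e.1 ≠ s' e.1 := fun e he q => by
      have : 0 < (N false W e.1).card := card_pos.2 ⟨e, mem_N.2 ⟨he, rfl⟩⟩
      rw [w2, dm, if_neg (by simp [q])] at this; exact this.false
    have z4 : ∀ e ∈ Z, s e.1 = s' e.1 := fun e he => by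
      by_contra q
      have : 0 < (N false Z e.1).card := card_pos.2 ⟨e, mem_N.2 ⟨he, rfl⟩⟩
      rw [z2, dm, if_neg (by simp [q])] at this; exact this.false
    refine ⟨W ∪ Z, fun e he => (mem_union.1 he).elim (w1 e) fun q => ?_, fun a => ?_, fun b => ?_⟩
    · have := mem_filter.1 (z1 q); exact ⟨h.sub e this.1, this.2⟩
    · rw [N, filter_union, card_union_of_disjoint (disjoint_left.2 fun e p q =>
        w4 e (mem_filter.1 p).1 (z4 e (mem_filter.1 q).1))]
      have := w2 a; have := z2 a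
      simp only [dm, N] at *
      split_ifs at * <;> first | omega | tauto
    · by_cases q : t' b = t b
      · refine k2 b q _ fun e he => ?_
        obtain ⟨q1, rfl⟩ := mem_N.1 he
        rcases mem_union.1 q1 with p | p
        · exact ⟨mem_N.2 ⟨k1 e (w1 e p).1 q (oa (w1 e p).2) (.inl ((hs _).lt_of_ne (w4 e p))), rfl⟩, (w1 e p).2⟩
        · have := mem_filter.1 (z1 p); exact ⟨mem_N.2 ⟨this.1, rfl⟩, this.2⟩
      · refine (card_le_card fun e he => ?_).trans (w3 b)
        obtain ⟨q1, rfl⟩ := mem_N.1 he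
        refine mem_N.2 ⟨(mem_union.1 q1).resolve_right fun p => q ((ht _).antisymm ?_), rfl⟩
        have := mem_filter.1 (z1 p)
        exact (this.2 true).symm.trans_le (h.al e this.1 true)
  rw [cn_A] at hb
  refine hb.not_ge (k2 b k _ fun e he => ?_)
  obtain ⟨q1, rfl, q2, q3⟩ := mem_A.1 he
  exact ⟨mem_N.2 ⟨k1 e q1 k (oa q2) (.inl (k3 _ (en_lt q1 false) q3)), rfl⟩, q2⟩

lemma done (h : Feas I t') (ht : t' ≤ t) (hR : ∀ b, t b ≤ R I) (hb : ∀ b, ¬ rule I (pr (sg I t) t) b) :
    Feas I t := by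
  obtain ⟨Y', h⟩ := h
  have hs := sg_anti (I := I) ht
  have l := @lt_sg I t
  set s := sg I t
  set s' := sg I t'
  simp only [rule, not_or, not_lt, not_le, not_and] at hb
  obtain ⟨W, w1, w2, w3⟩ : fz I (pr s t) (· ∈ ([] : List ℕ)) := by
    by_contra h0
    obtain ⟨Z, z1, z2⟩ := trim (A I fun e => op I (pr s t) e ∧ e.1 ∉ bs I (pr s t))
      (dm I (pr s t) (· ∈ bs I (pr s t))) fun a => by
        rw [dm]; split_ifs with q
        · have := not_lt.1 (mt (fun x => (@l a (s a)).2 ⟨q.2, x⟩) (lt_irrefl _))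
          have := card_le_add (S := A I fun e => e.1 = a ∧ ρ I false e ≤ s a ∧ ρ I true e ≤ t e.2)
            (T := N false (A I fun e => op I (pr s t) e ∧ e.1 ∉ bs I (pr s t)) a)
            (U := A I fun e => en false e = a ∧ fo I (pr s t) e) fun e he => by
              obtain ⟨q2, rfl, q3⟩ := mem_A.1 he
              simp only [mem_N, mem_A, q2, q.1, op_iff, fo_iff, pr_t, pr_f, en_f, true_and,
                and_true, not_false_eq_true]
              omega
          rw [ph, cn_A]; omega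
        · exact Nat.zero_le _
    refine (bs_spec h0).1 ⟨Z, fun e he => ?_, z2, fun b => le_trans ?_ ((hb b).2.2 h0)⟩
    · have := mem_A.1 (z1 he); exact ⟨this.1, this.2.1⟩
    · rw [cn_A]
      refine card_le_card fun e he => ?_
      have := mem_A.1 (z1 (mem_N.1 he).1); exact mem_A.2 ⟨this.1, (mem_N.1 he).2, this.2⟩
  let Y := A I (fo I (pr s t)) ∪ W
  have y0 : ∀ i a, (N i Y a).card = ph I (pr s t) i a + (N i W a).card := fun i a => by
    rw [N, filter_union, card_union_of_disjoint (disjoint_left.2 fun e p q => by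
      have := fo_iff.1 (mem_A.1 (mem_filter.1 p).1).2
      have := op_iff.1 (w1 e (mem_filter.1 q).1).2; omega), ph, cn_A]
    congr 2; ext e; simp only [mem_filter, mem_A]; tauto
  have y1 : ∀ e ∈ Y, e ∈ L I ∧ al I (pr s t) e := fun e he => (mem_union.1 he).elim
    (fun q => ⟨(mem_A.1 q).1, (mem_A.1 q).2.1⟩) fun q => ⟨(w1 e q).1, fun i => ((w1 e q).2 i).le⟩
  have y2 : ∀ e ∈ L I, fo I (pr s t) e → e ∈ Y := fun e p q => mem_union_left _ (mem_A.2 ⟨p, q⟩)
  have y5 : ∀ a, s a < R I → c I a ≤ (N false Y a).card := fun a q => by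
    rw [y0, w2, dm, if_pos ⟨by simp, q⟩]; omega
  have y3 : ∀ a, (N false Y' a).card ≤ (N false Y a).card := fun a => by
    rcases (sg_le (I := I) (t := t) a).lt_or_eq with q | q
    · exact (h.deg _ a).trans (y5 a q)
    · refine card_le_card fun e he => ?_
      obtain ⟨q1, rfl⟩ := mem_N.1 he
      have := al_iff.1 (h.al e q1)
      have := ρ_lt (h.sub e q1) false
      have := ht e.2
      exact mem_N.2 ⟨y2 e (h.sub e q1) (fo_iff.2 (by simp only [pr_t, pr_f, en_f, s] at *; omega)), rfl⟩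
  have y4 : ∀ b, (N true Y b).card ≤ (N true Y' b).card := fun b => by
    rcases (h.le true b).lt_or_eq with q | q
    · rw [h.full true b q, y0]; have := w3 b; have := (hb b).1; omega
    · refine card_le_card fun e he => ?_
      obtain ⟨q1, rfl⟩ := mem_N.1 he
      have := al_iff.1 (y1 e q1).2
      have := ρ_lt (y1 e q1).1 true
      have := hs e.1
      exact mem_N.2 ⟨h.fo e (y1 e q1).1 (fo_iff.2 (by simp only [pr_t, pr_f, en_t] at *; omega)), rfl⟩
  have y6 := (fib false y3).2 (fib true y4).1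
  have y7 := (fib true y4).2 (fib false y3).1
  refine ⟨Y, fun e he => (y1 e he).1, fun e he => (y1 e he).2, y2, fun i a => ?_, fun i a q => ?_, fun i a => ?_⟩
  · cases i
    exacts [sg_le a, hR a]
  · cases i
    · exact ((y6 a).ge.trans (h.deg _ a)).antisymm (y5 a q)
    · exact (y7 a).trans (h.full true a ((ht a).trans_lt q))
  · cases i
    · rcases Nat.eq_zero_or_pos (s a) with q | q
      · exact (card_eq_zero.2 (filter_false_of_mem fun e _ => not_lt.2 (q.le.trans (Nat.zero_le _)))).trans_lt (c_pos a)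
      · refine (card_le_card fun e he => ?_).trans_lt ((@l a (s a - 1)).1 (by omega)).2
        obtain ⟨q0, q2⟩ := mem_filter.1 he
        obtain ⟨q1, rfl⟩ := mem_N.1 q0
        exact mem_A.2 ⟨(y1 e q1).1, rfl, Nat.le_sub_one_of_lt q2, (y1 e q1).2 true⟩
    · refine (card_le_card fun e he => ?_).trans_lt ((cn_A _).ge.trans_lt (hb a).2.1)
      obtain ⟨q0, q2⟩ := mem_filter.1 he
      obtain ⟨q1, rfl⟩ := mem_N.1 q0
      exact mem_A.2 ⟨(y1 e q1).1, rfl, (y1 e q1).2, q2⟩

def fn (I : In) (l : List ℕ) (b : ℕ) : ℕ := if b < n I then min (R I) (l.getD b 0) else R I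
lemma fn_le (l : List ℕ) (b : ℕ) : fn I l b ≤ R I := by unfold fn; split_ifs <;> omega
lemma fn_map (g : ℕ → ℕ) (b : ℕ) : fn I ((List.range (n I)).map g) b = if b < n I then min (R I) (g b) else R I := by
  unfold fn; split_ifs with h <;> simp [h]
lemma fn_big {l : List ℕ} {b : ℕ} (h : n I ≤ b) : fn I l b = R I := if_neg h.not_gt

noncomputable def st (I : In) (l : List ℕ) : List ℕ := (List.range (n I)).map fun b =>
  if rule I (pr (sg I (fn I l)) (fn I l)) b then fn I l b - 1 else fn I l b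

lemma fn_st (l : List ℕ) (b : ℕ) :
    fn I (st I l) b = if rule I (pr (sg I (fn I l)) (fn I l)) b ∧ b < n I then fn I l b - 1 else fn I l b := by
  have := fn_le (I := I) l b
  have := @fn_big I l b
  rw [st, fn_map]; split_ifs <;> first | omega | tauto

lemma rule.lt {b : ℕ} (h : rule I τ b) : b < n I := by
  by_contra! k
  have := c_pos (I := I) b
  simp only [rule, ph, pl, cn_A] at h
  rw [A_big true k fun _ h => h.1, A_big true k fun _ h => h.1, A_big true k fun _ h => h.1] at h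
  omega

lemma st_spec (l : List ℕ) (k : ℕ) : fn I ((st I)^[k] l) ≤ fn I l ∧ (Feas I t → t ≤ fn I l →
    t ≤ fn I ((st I)^[k] l) ∧ (Feas I (fn I ((st I)^[k] l)) ∨
      ∑ b ∈ range (n I), fn I ((st I)^[k] l) b + k ≤ n I * R I)) := by
  induction k with
  | zero => exact ⟨le_rfl, fun _ h => ⟨h, .inr (by
      simpa using sum_le_card_nsmul (range (n I)) (fn I l) (R I) fun b _ => fn_le l b)⟩⟩
  | succ k ih =>
    rw [Function.iterate_succ_apply']
    generalize (st I)^[k] l = m at *
    have u : fn I (st I m) ≤ fn I m := fun b => (fn_st m b).trans_le (by split_ifs <;> omega)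
    refine ⟨u.trans ih.1, fun h1 h2 => ?_⟩
    obtain ⟨h3, h4⟩ := ih.2 h1 h2
    refine ⟨fun b => ?_, ?_⟩
    · rw [fn_st]; split_ifs with q
      exacts [Nat.le_sub_one_of_lt (must h1 h3 q.1), h3 b]
    by_cases q : ∃ b, rule I (pr (sg I (fn I m)) (fn I m)) b
    · obtain ⟨b, q⟩ := q
      have := h4.resolve_left fun f => (must f le_rfl q).false
      have := sum_lt_sum (fun b _ => u b) ⟨b, mem_range.2 q.lt, by
        rw [fn_st, if_pos ⟨q, q.lt⟩]; have := must h1 h3 q; omega⟩
      right; omega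
    · rw [show fn I (st I m) = fn I m from funext fun b => by rw [fn_st, if_neg fun x => q ⟨b, x.1⟩]]
      exact .inl (done h1 h3 (fn_le m) (not_exists.1 q))

end Pool.Agent.H.MP_00b752_lc
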