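import Pool.Agent.H.MP_00b752_lc.C
import Pool.Agent.Lib.helper22.CXReach

set_option autoImplicit false

namespace Pool.Agent.H.MP_00b752_lc

open Pool.Agent.Lib.CX Finset Classical

section
variable {I : In} {τ : Th} {Y : Finset (ℕ × ℕ)}

lemma dg_N (W : Finset (ℕ × ℕ)) (i : Bool) (a : ℕ) :
    dg (fun e => (false, e.1)) (fun e => (true, e.2)) W (i, a) = (N i W a).card := by
  unfold dg; congr 1; ext e; cases i <;> simp

lemma sum_N (h : ∀ e ∈ Y, e ∈ L I) : ∑ a ∈ range (n I), (N false Y a).card = Y.card :=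
  (card_eq_sum_card_fiberwise (f := en false) fun e he => mem_coe.2 (mem_range.2 (en_lt (h e he) _))).symm

lemma N_big (h : ∀ e ∈ Y, e ∈ L I) (i : Bool) {a : ℕ} (ha : n I ≤ a) : N i Y a = ∅ :=
  eq_empty_of_forall_notMem fun e he => by
    have := en_lt (h e (mem_N.1 he).1) i
    have := (mem_N.1 he).2
    omega

lemma fz_iff (hb : ∀ a, n I ≤ a → R I ≤ τ false a) (B : ℕ → Prop) : fz I τ B ↔
    ((List.range (n I)).map (dm I τ B)).sum ≤ mx (fl (L I) (op I τ)) (fun e => (false, e.1)) (fun e => (true, e.2))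
      fun v => bif v.1 then c I v.2 - ph I τ true v.2 else dm I τ B v.2 := by
  obtain ⟨⟨M, m1, m2, m3⟩, m4⟩ := mx_spec (nodup_fl (nodup_L (I := I)) (op I τ)) (p := fun e => (false, e.1))
    (q := fun e => (true, e.2)) (by simp) fun v => bif v.1 then c I v.2 - ph I τ true v.2 else dm I τ B v.2
  rw [← List.sum_toFinset _ List.nodup_range, List.toFinset_range]
  constructor
  · rintro ⟨W, w1, w2, w3⟩
    refine le_trans (sum_le_sum fun a _ => (w2 a).ge) ((sum_N fun e he => (w1 e he).1).le.trans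
      (m4 ⟨W, by simpa using w1, ?_, rfl⟩))
    rintro ⟨_ | _, a⟩ <;> rw [dg_N]
    exacts [(w2 a).le, w3 a]
  · intro h
    have m1 : ∀ e ∈ M, e ∈ L I ∧ op I τ e := by simpa using m1
    have m5 : ∀ a, (N false M a).card ≤ dm I τ B a := fun a => (dg_N M false a).ge.trans (m2 _)
    rw [← m3, ← sum_N fun e he => (m1 e he).1] at h
    refine ⟨M, m1, fun a => ?_, fun b => (dg_N M true b).ge.trans (m2 _)⟩
    rcases lt_or_ge a (n I) with q | q
    · exact (sum_eq_sum_iff_of_le fun a _ => m5 a).1 ((sum_le_sum fun a _ => m5 a).antisymm h) a (mem_range.2 q)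
    · exact (m5 a).antisymm (by rw [dm, if_neg fun x => x.2.not_ge (hb a q)]; exact Nat.zero_le _)

def Nrm (I : In) (τ : Th) : Prop := ∀ a < n I, ∀ i ∈ [true, false], τ i a ≤ R I ∧ pl I τ i a < c I a
noncomputable def tg (I : In) (τ : Th) (i : Bool) (a : ℕ) : ℕ := if τ i a < R I then c I a else ph I τ i a

lemma sol_iff (hb : ∀ i a, n I ≤ a → τ i a = R I) : Sol I τ Y ↔ Nrm I τ ∧ (∀ e ∈ L I, fo I τ e → e ∈ Y) ∧
    (∀ e ∈ Y, e ∈ L I ∧ al I τ e) ∧ ∀ i a, τ i a < R I → (N i Y a).card = c I a := by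
  have k : (∀ e ∈ L I, fo I τ e → e ∈ Y) → (∀ e ∈ Y, e ∈ L I ∧ al I τ e) → ∀ i a,
      ((N i Y a).filter fun e => ρ I i e < τ i a).card = pl I τ i a := fun h1 h2 i a => by
    rw [pl, cn_A]; congr 1; ext e
    simp only [mem_filter, mem_N, mem_A]
    exact ⟨fun h => ⟨(h2 e h.1.1).1, h.1.2, (h2 e h.1.1).2, h.2⟩,
      fun h => ⟨⟨h1 e h.1 ⟨h.2.2.1, i, h.2.1 ▸ h.2.2.2⟩, h.2.1⟩, h.2.2.2⟩⟩
  constructor
  · intro h
    have := fun e he => And.intro (h.sub e he) (h.al e he)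
    exact ⟨fun a _ i _ => ⟨h.le i a, k h.fo this i a ▸ h.nrm i a⟩, h.fo, this, h.full⟩
  · rintro ⟨h1, h2, h3, h4⟩
    refine ⟨fun e he => (h3 e he).1, fun e he => (h3 e he).2, h2, fun i a => ?_, h4, fun i a => ?_⟩ <;>
      rcases lt_or_ge a (n I) with q | q
    · exact (h1 a q i (by cases i <;> simp)).1
    · exact (hb i a q).le
    · exact k h2 h3 i a ▸ (h1 a q i (by cases i <;> simp)).2
    · rw [N_big (fun e he => (h3 e he).1) i q]; exact c_pos a

lemma Sol.tg (h : Sol I τ Y) (i : Bool) (a : ℕ) : (N i Y a).card = tg I τ i a := by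
  rw [MP_00b752_lc.tg]; split_ifs with q
  · exact h.full i a q
  · rw [ph, cn_A]; congr 1; ext e
    simp only [mem_N, mem_A]
    exact ⟨fun k => ⟨h.sub e k.1, k.2, h.al e k.1, i, (ρ_lt (h.sub e k.1) i).trans_le (k.2 ▸ not_lt.1 q)⟩,
      fun k => ⟨h.fo e k.1 k.2.2, k.2.1⟩⟩

lemma tg_big (hb : ∀ i a, n I ≤ a → τ i a = R I) (i : Bool) {a : ℕ} (h : n I ≤ a) : tg I τ i a = 0 := by
  rw [tg, if_neg (hb i a h).not_lt, ph, cn_A, A_big i h fun _ h => h.1]

def SolB (I : In) (τ : Th) (K U : ℕ × ℕ → Prop) : Prop :=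
  ∃ Y, Sol I τ Y ∧ (∀ e ∈ L I, K e → e ∈ Y) ∧ ∀ e ∈ Y, U e

lemma solb_iff (hb : ∀ i a, n I ≤ a → τ i a = R I) (K U : ℕ × ℕ → Prop) : SolB I τ K U ↔ Nrm I τ ∧
    Btw (L I) (fun e => (false, e.1)) (fun e => (true, e.2)) (fun e => fo I τ e ∨ K e) (fun e => al I τ e ∧ U e)
      fun v => tg I τ v.1 v.2 := by
  constructor
  · rintro ⟨Y, h, h1, h2⟩
    exact ⟨((sol_iff hb).1 h).1, Y, fun e he k => k.elim (h.fo e he) (h1 e he),
      fun e he => ⟨h.sub e he, h.al e he, h2 e he⟩, fun v => (dg_N Y v.1 v.2).trans (h.tg _ _)⟩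
  · rintro ⟨h, Y, h1, h2, h3⟩
    exact ⟨Y, (sol_iff hb).2 ⟨h, fun e he k => h1 e he (.inl k), fun e he => ⟨(h2 e he).1, (h2 e he).2.1⟩,
      fun i a q => (dg_N Y i a).symm.trans ((h3 _).trans (if_pos q))⟩, fun e he k => h1 e he (.inr k),
      fun e he => (h2 e he).2.2⟩

end

section
variable {α : Type} [Enc α] {I : α → In} {a b : α → ℕ} {e : α → ℕ × ℕ} {i : α → Bool} {τ : α → Th}
  {s t : α → ℕ → ℕ}

@[fun_prop] lemma pt_n (hI : PT I) : PT fun x => n (I x) := by unfold n; fun_prop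
@[fun_prop] lemma pb_n (hI : PT I) : PB fun x => n (I x) := by unfold n; fun_prop
@[fun_prop] lemma pt_R (hI : PT I) : PT fun x => R (I x) := by unfold R; fun_prop
@[fun_prop] lemma pb_R (hI : PT I) : PB fun x => R (I x) := by unfold R; fun_prop
@[fun_prop] lemma pt_c (hI : PT I) (ha : PT a) : PT fun x => c (I x) (a x) := by unfold c cap; fun_prop
@[fun_prop] lemma pt_L (hI : PT I) : PT fun x => L (I x) := by unfold L Edge pref; fun_prop
@[fun_prop] lemma pt_en (hi : PT i) (he : PT e) : PT fun x => en (i x) (e x) := by unfold en; fun_prop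
@[fun_prop] lemma pt_ρ (hI : PT I) (hi : PT i) (he : PT e) : PT fun x => ρ (I x) (i x) (e x) := by
  unfold ρ rk pref; fun_prop
@[fun_prop] lemma pt_pr (hs : PT fun x : α × ℕ => s x.1 x.2) (ht : PT fun x : α × ℕ => t x.1 x.2) (hi : PT i)
    (ha : PT a) : PT fun x => pr (s x) (t x) (i x) (a x) := by unfold pr; fun_prop
@[fun_prop] lemma pt_fn {l : α → List ℕ} (hI : PT I) (hl : PT l) (ha : PT a) : PT fun x => fn (I x) (l x) (a x) := by
  unfold fn; fun_prop
@[fun_prop] lemma pt_sg (hI : PT I) (ht : PT fun x : α × ℕ => t x.1 x.2) (ha : PT a) :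
    PT fun x => sg (I x) (t x) (a x) := by unfold sg; fun_prop

variable (hI : PT I) (hτ : PT fun x : α × Bool × ℕ => τ x.1 x.2.1 x.2.2)
include hI hτ

@[fun_prop] lemma pd_al {k : ∀ _ : α, Decidable _} (he : PT e) : PT fun x => @decide (al (I x) (τ x) (e x)) (k x) :=
  pd_congr (j := fun _ => inferInstance) (by fun_prop) fun _ => al_iff
@[fun_prop] lemma pd_fo {k : ∀ _ : α, Decidable _} (he : PT e) : PT fun x => @decide (fo (I x) (τ x) (e x)) (k x) :=
  pd_congr (j := fun _ => inferInstance) (by fun_prop) fun _ => fo_iff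
@[fun_prop] lemma pd_op {k : ∀ _ : α, Decidable _} (he : PT e) : PT fun x => @decide (op (I x) (τ x) (e x)) (k x) :=
  pd_congr (j := fun _ => inferInstance) (by fun_prop) fun _ => op_iff
@[fun_prop] lemma pt_ph (hi : PT i) (ha : PT a) : PT fun x => ph (I x) (τ x) (i x) (a x) := by unfold ph; fun_prop
@[fun_prop] lemma pt_pl (hi : PT i) (ha : PT a) : PT fun x => pl (I x) (τ x) (i x) (a x) := by unfold pl; fun_prop
@[fun_prop] lemma pt_tg (hi : PT i) (ha : PT a) : PT fun x => tg (I x) (τ x) (i x) (a x) := by unfold tg; fun_prop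
@[fun_prop] lemma pt_dm {B : α → List ℕ} (hB : PT B) (ha : PT a) :
    PT fun x => dm (I x) (τ x) (· ∈ B x) (a x) := by unfold dm; fun_prop
@[fun_prop] lemma pd_nrm {k : ∀ _ : α, Decidable _} : PT fun x => @decide (Nrm (I x) (τ x)) (k x) := by unfold Nrm; fun_prop

lemma pd_solb {K U : α → ℕ × ℕ → Prop} (hK : PT fun x : α × ℕ × ℕ => @decide (K x.1 x.2) (propDecidable _))
    (hU : PT fun x : α × ℕ × ℕ => @decide (U x.1 x.2) (propDecidable _))
    (hb : ∀ x i a, n (I x) ≤ a → τ x i a = R (I x)) {k : ∀ _ : α, Decidable _} :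
    PT fun x => @decide (SolB (I x) (τ x) (K x) (U x)) (k x) :=
  pd_congr (j := fun _ => inferInstance) (PT.decide_and (pd_nrm (k := fun _ => inferInstance) hI hτ)
    (pt_btw (V := fun x => [true, false] ×ˢ List.range (n (I x))) (pt_L hI) (by fun_prop) (by fun_prop)
      (PT.decide_or (pd_fo (k := fun _ => inferInstance) (by fun_prop) (by fun_prop) (by fun_prop)) hK)
      (PT.decide_and (pd_al (k := fun _ => inferInstance) (by fun_prop) (by fun_prop) (by fun_prop)) hU)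
      (by fun_prop) (by fun_prop) (fun _ => nodup_L) (by simp)
      (fun _ => List.Nodup.product (by simp) List.nodup_range)
      (fun x e he => by simpa using And.intro (en_lt he false) (en_lt he true))
      fun x v hv => tg_big (hb x) _ (by obtain ⟨_ | _, a⟩ := v <;> simpa using hv)))
    fun x => solb_iff (hb x) _ _

omit hτ

@[fun_prop] lemma pd_fz (ht : PT fun x : α × ℕ => t x.1 x.2) {B : α → List ℕ} (hB : PT B) {k : ∀ _ : α, Decidable _} :
    PT fun x => @decide (fz (I x) (pr (sg (I x) (t x)) (t x)) (· ∈ B x)) (k x) :=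
  pd_congr (j := fun _ => inferInstance) (PT.decide_le (by fun_prop) (pt_mx (by fun_prop) (by fun_prop)
    (by fun_prop) (by fun_prop))) fun x => fz_iff (fun _ h => (sg_big h).ge) _

@[fun_prop] lemma pd_rule (ht : PT fun x : α × ℕ => t x.1 x.2) (ha : PT a) {k : ∀ _ : α, Decidable _} :
    PT fun x => @decide (rule (I x) (pr (sg (I x) (t x)) (t x)) (a x)) (k x) := by
  have : PT fun x => bs (I x) (pr (sg (I x) (t x)) (t x)) := pt_gr (by fun_prop) (by fun_prop)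
  obtain ⟨B, hB, e⟩ : ∃ B : α → List ℕ, PT B ∧ ∀ x, bs (I x) (pr (sg (I x) (t x)) (t x)) = B x := ⟨_, this, fun _ => rfl⟩
  simp only [rule, e]; fun_prop

lemma pd_feas (ht : PT fun x : α × ℕ => t x.1 x.2) (hb : ∀ x a, n (I x) ≤ a → t x a = R (I x)) {k : ∀ _ : α, Decidable _} :
    PT fun x => @decide (Feas (I x) (t x)) (k x) :=
  pd_congr (pd_solb (τ := fun x => pr (sg (I x) (t x)) (t x)) (K := fun _ _ => False) (U := fun _ _ => True)
    (k := fun _ => inferInstance) hI (by fun_prop) (by simpa using PT.const _) (by simpa using PT.const _)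
    fun x i a h => by cases i; exacts [sg_big h, hb x a h]) fun x => by simp [SolB, Feas]

end

lemma exH : ∃ H : In × ℕ × ℕ → List ℕ, PT H ∧ ∀ I b r, b < n I → fn I (H (I, b, r)) b ≤ r ∧
    ∀ t, Feas I t → t b ≤ r → t ≤ fn I (H (I, b, r)) ∧ Feas I (fn I (H (I, b, r))) := by
  refine ⟨fun x => (st x.1)^[n x.1 * R x.1 + 1] ((List.range (n x.1)).map fun a => if a = x.2.1 then
    min (R x.1) x.2.2 else R x.1), PT.iterate (B := fun x => n x.1 * (3 * R x.1 + 2 + 1) + 2)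
    (by unfold st; fun_prop) (by fun_prop) (by fun_prop) (by fun_prop) (by fun_prop) fun x k _ => ?_,
    fun I b r hb => ⟨((st_spec (t := id) _ _).1 b).trans (by simp [fn_map, hb]), fun t h1 h2 => ?_⟩⟩
  · have : ∀ g : ℕ → ℕ, (∀ a, g a ≤ R x.1) → size ((List.range (n x.1)).map g) ≤ n x.1 * (3 * R x.1 + 2 + 1) + 2 :=
      fun g hg => (size_list_le fun v hv => by
        obtain ⟨a, -, rfl⟩ := List.mem_map.1 hv
        exact (size_nat_mono (hg a)).trans (size_nat_le _)).trans_eq (by simp)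
    cases k
    · exact this _ fun a => by split_ifs <;> omega
    · rw [Function.iterate_succ_apply']
      exact this _ fun a => by split_ifs; exacts [(Nat.sub_le _ _).trans (fn_le _ a), fn_le _ a]
  · obtain ⟨h3, h4⟩ := (st_spec ((List.range (n I)).map fun a => if a = b then min (R I) r else R I)
      (n I * R I + 1)).2 h1 (fun a => by
      have := h1.le a
      refine le_of_le_of_eq ?_ (fn_map _ a).symm
      split_ifs with _ q
      exacts [le_min this (le_min this (q ▸ h2)), le_min this this, this])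
    exact ⟨h3, h4.resolve_right (by omega)⟩

/-- symmetric feasible thresholds -/
def T (I : In) (t : ℕ → ℕ) : Prop := ∃ Y, Sol I (pr t t) Y
def Av (I : In) (B : List (ℕ × ℕ)) (t : ℕ → ℕ) : Prop := ∀ x ∈ B, x.1 < n I → t x.1 ≠ x.2

def bad (I : In) (H : ℕ → ℕ → ℕ → ℕ) (F : ℕ → ℕ → Bool) (B : List (ℕ × ℕ))
    (x : ((ℕ × ℕ) × Bool) × (ℕ × ℕ) × Bool) : Prop :=
  (x.1.2 = true ∧ x.2.2 = false ∧ (H x.1.1.1 x.1.1.2 x.2.1.1 ≤ x.2.1.2 ∨
    (x.1.1 ∈ B ∧ x.1.1.1 = x.2.1.1 ∧ x.2.1.2 + 1 = x.1.1.2))) ∨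
  (x.1.2 = true ∧ x.2.2 = true ∧ (F x.1.1.1 x.1.1.2 = false ∨ x.2.1.2 < sg I (H x.1.1.1 x.1.1.2) x.2.1.1 ∨
    (x.1.1 ∈ B ∧ x.1.1.2 = 0))) ∨
  (x.1.2 = false ∧ x.2.2 = false ∧ ¬ ∃ b < n I, ∃ r < R I + 1, F b r = true ∧ x.1.1.2 < sg I (H b r) x.1.1.1 ∧
    x.2.1.2 < H b r x.2.1.1)

def lits (I : In) : List ((ℕ × ℕ) × Bool) := (List.range (n I) ×ˢ List.range (R I + 1)) ×ˢ [true, false]

lemma sat_iff {I : In} {H : ℕ → ℕ → ℕ → ℕ} {F : ℕ → ℕ → Bool} (hF : ∀ b r, F b r = true ↔ Feas I (H b r))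
    (hH : ∀ b r, b < n I → H b r b ≤ r ∧ ∀ t, Feas I t → t b ≤ r → t ≤ H b r ∧ Feas I (H b r))
    (B : List (ℕ × ℕ)) : sat2B (fl (lits I ×ˢ lits I) (bad I H F B)) = true ↔
      ∃ t, T I t ∧ Av I B t := by
  rw [sat2B_iff]
  constructor
  · rintro ⟨v, hv⟩
    replace hv : ∀ {a r i d q j}, a < n I → r ≤ R I → d < n I → q ≤ R I → v (a, r) = i → v (d, q) = j →
        ¬ bad I H F B (((a, r), i), (d, q), j) := fun {a r i d q j} h1 h2 h3 h4 h5 h6 h7 =>
      hv _ (mem_fl.2 ⟨by cases i <;> cases j <;> simp [lits, Nat.lt_succ_iff, h1, h2, h3, h4], h7⟩) ⟨h5, h6⟩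
    let t : ℕ → ℕ := fun a => if a < n I then sInf {r | v (a, r) = true} else R I
    have vR : ∀ a < n I, v (a, R I) = true := fun a ha => by
      by_contra! q
      have q := Bool.eq_false_iff.2 q
      exact hv ha le_rfl ha le_rfl q q (.inr (.inr ⟨rfl, rfl, fun ⟨b, _, r, _, _, h, _⟩ => h.not_ge (sg_le _)⟩))
    have t1 : ∀ {a r}, a < n I → v (a, r) = true → t a ≤ r := fun h q => (if_pos h).trans_le (Nat.sInf_le q)
    have t2 : ∀ a < n I, v (a, t a) = true := fun a h => by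
      simp only [t, if_pos h]; exact Nat.sInf_mem (s := {r | v (a, r) = true}) ⟨_, vR a h⟩
    have t3 : ∀ a, n I ≤ a → t a = R I := fun a h => if_neg h.not_gt
    have t4 : ∀ a, t a ≤ R I := fun a => (lt_or_ge a (n I)).elim (fun h => t1 h (vR a h)) fun h => (t3 a h).le
    have t5 : ∀ {a r}, a < n I → r < t a → v (a, r) = false := fun h q =>
      Bool.eq_false_iff.2 fun z => q.not_ge (t1 h z)
    obtain ⟨f1, f2⟩ := meet_all (w := t) t3 fun b hb => by
      have f : Feas I (H b (t b)) := (hF _ _).1 (by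
        by_contra q
        exact hv hb (t4 b) hb (t4 b) (t2 b hb) (t2 b hb) (.inr (.inl ⟨rfl, rfl, .inl (by simpa using q)⟩)))
      refine ⟨_, f, fun d => ?_, (hH b _ hb).1, fun d => ?_⟩ <;> rcases lt_or_ge d (n I) with q | q
      · exact not_lt.1 fun z => hv hb (t4 b) q (f.le d) (t2 b hb) (t5 q z) (.inl ⟨rfl, rfl, .inl le_rfl⟩)
      · exact (t4 d).trans_eq (f.big q).symm
      · exact not_lt.1 fun z => hv hb (t4 b) q (t4 d) (t2 b hb) (t2 d q) (.inr (.inl ⟨rfl, rfl, .inr (.inl z)⟩))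
      · exact (sg_le d).trans_eq (t3 d q).symm
    have f3 : sg I t = t := f2.antisymm fun a => not_lt.1 fun z => by
      have ha : a < n I := not_le.1 fun q => z.not_ge ((t4 a).trans_eq (sg_big q).symm)
      have k : ∀ d < n I, 0 < t d → ∃ g, Feas I g ∧ t d ≤ g d ∧ Function.update (fun _ => 0) a (sg I t a + 1) ≤ sg I g :=
        fun d hd q => by
          by_contra y
          refine hv ha (sg_le a) hd ((Nat.sub_le _ 1).trans (t4 d)) (t5 ha z) (t5 hd (by omega))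
            (.inr (.inr ⟨rfl, rfl, fun ⟨b, _, r, _, y1, y2, y3⟩ => y ⟨_, (hF _ _).1 y1, ?_, ?_⟩⟩))
          · exact (Nat.sub_add_cancel q).ge.trans y3
          · exact update_le_iff.2 ⟨y2, fun _ _ => Nat.zero_le _⟩
      have := join_all (w := Function.update (fun _ => 0) a (sg I t a + 1)) t4 (fun d hd => (Nat.eq_zero_or_pos (t d)).elim
        (fun q => (k a ha (Nat.zero_lt_of_lt z)).imp fun g y => ⟨y.1, q.le.trans (Nat.zero_le _), y.2.2⟩) (k d hd)) a
      simp at this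
    refine ⟨t, by simpa only [Feas, f3, T] using f1, fun x hx ha q => ?_⟩
    rcases Nat.eq_zero_or_pos (t x.1) with z | z
    · exact hv ha (t4 _) ha (t4 _) (t2 _ ha) (t2 _ ha) (.inr (.inl ⟨rfl, rfl, .inr (.inr ⟨q ▸ hx, z⟩)⟩))
    · exact hv ha (t4 _) ha ((Nat.sub_le _ 1).trans (t4 _)) (t2 _ ha) (t5 ha (by omega))
        (.inl ⟨rfl, rfl, .inr ⟨q ▸ hx, rfl, Nat.sub_add_cancel z⟩⟩)
  · rintro ⟨t, ⟨Y, hY⟩, hB⟩
    obtain ⟨f1, f2⟩ := hY.feas
    refine ⟨fun x => decide (t x.1 ≤ x.2), ?_⟩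
    rintro ⟨⟨⟨a, r⟩, i⟩, ⟨d, q⟩, j⟩ hx ⟨e1, e2⟩
    obtain rfl : decide (t a ≤ r) = i := e1
    obtain rfl : decide (t d ≤ q) = j := e2
    obtain ⟨h0, h2⟩ := mem_fl.1 hx
    have h1 : a < n I ∧ d < n I := by
      simp only [lits, List.mem_product, List.mem_range] at h0; tauto
    simp only [bad, decide_eq_true_eq, decide_eq_false_iff_not, not_le] at h2
    rcases h2 with ⟨k1, k2, k | ⟨k, rfl, rfl⟩⟩ | ⟨k1, k2, k | k | ⟨k, rfl⟩⟩ | ⟨k1, k2, k⟩
    · exact (k2.trans_le (((hH a r h1.1).2 t f1 k1).1 d)).not_ge k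
    · exact hB _ k h1.1 (k1.antisymm k2)
    · rw [(hF _ _).2 ((hH a r h1.1).2 t f1 k1).2] at k; cases k
    · exact (k.trans_le ((sg_anti ((hH a r h1.1).2 t f1 k1).1).trans_eq f2 d)).not_ge k2
    · exact hB _ k h1.1 (Nat.le_zero.1 k1)
    · have := (meet_all (w := Function.update (fun _ => R I) a r) (fun _ => f1.big) fun b hb => by
        obtain ⟨y1, y2⟩ := (hH b _ hb).2 t f1 le_rfl
        refine ⟨_, y2, y1, (hH b _ hb).1, le_update_iff.2 ⟨not_lt.1 fun z => k ⟨b, hb, t b,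
          Nat.lt_succ_of_le (f1.le b), (hF _ _).2 y2, z, k2.trans_le (y1 d)⟩, fun _ _ => sg_le _⟩⟩).2 a
      rw [f2, Function.update_self] at this
      exact k1.not_ge this

lemma pd_sat : PT fun x : In × List (ℕ × ℕ) => decide (∃ t, T x.1 t ∧ Av x.1 x.2 t) := by
  obtain ⟨H, h1, h2⟩ := exH
  obtain ⟨F, f1, f2⟩ : ∃ F : In × ℕ × ℕ → Bool, PT F ∧ ∀ x, F x = true ↔ Feas x.1 (fn x.1 (H x)) :=
    ⟨_, pd_feas (I := Prod.fst) (t := fun x => fn x.1 (H x)) (k := fun _ => inferInstance) (by fun_prop)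
      (by fun_prop) fun _ _ => fn_big, by simp⟩
  refine PT.congr (g := fun x => sat2B (fl (lits x.1 ×ˢ lits x.1)
    (bad x.1 (fun b r => fn x.1 (H (x.1, b, r))) (fun b r => F (x.1, b, r)) x.2))) ?_ fun x => ?_
  · unfold lits bad; fun_prop
  · rw [Bool.eq_iff_iff, sat_iff (fun b r => f2 (x.1, b, r)) (h2 x.1), decide_eq_true_eq]

lemma exS : ∃ S : In × List (ℕ × ℕ) → List ℕ, PT S ∧ ∀ I B, (∃ t, T I t ∧ Av I B t) →
    T I (fn I (S (I, B))) ∧ Av I B (fn I (S (I, B))) := by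
  have := pt_gr (P := fun (x : In × List (ℕ × ℕ)) D => ∃ t, T x.1 t ∧ Av x.1 (D ++ x.2) t)
    (L := fun x => List.range (n x.1) ×ˢ List.range (R x.1 + 1)) (by fun_prop)
    (pd_sat.comp (g := fun x : (In × List (ℕ × ℕ)) × List (ℕ × ℕ) => (x.1.1, x.2 ++ x.1.2)) (by fun_prop))
  obtain ⟨G, hG, e⟩ : ∃ G : In × List (ℕ × ℕ) → List (ℕ × ℕ), PT G ∧ ∀ x, G x = gr (fun D => ∃ t, T x.1 t ∧
    Av x.1 (D ++ x.2) t) (List.range (n x.1) ×ˢ List.range (R x.1 + 1)) := ⟨_, this, fun _ => rfl⟩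
  refine ⟨fun x => (List.range (n x.1)).map fun a => (fl (List.range (R x.1 + 1)) fun r => (a, r) ∉ G x).sum,
    by fun_prop, fun I B h => ?_⟩
  obtain ⟨⟨t, ⟨Y, hY⟩, t2⟩, g⟩ := gr_spec (P := fun D => ∃ t, T I t ∧ Av I (D ++ B) t)
    (fun D D' k ⟨t, h1, h2⟩ => ⟨t, h1, fun x hx => h2 x (by
      rw [List.mem_append] at hx ⊢; exact hx.imp_left fun q => k q)⟩) h
    (List.range (n I) ×ˢ List.range (R I + 1))
  rw [← e (I, B)] at t2 g
  suffices fn I _ = t from this ▸ ⟨⟨Y, hY⟩, fun x hx => t2 x (List.mem_append_right _ hx)⟩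
  funext a
  have tR : t a ≤ R I := hY.le true a
  refine (fn_map _ a).trans ?_
  split_ifs with ha
  · rw [List.perm_singleton.1 ((List.perm_ext_iff_of_nodup (nodup_fl List.nodup_range _)
      (List.nodup_singleton (t a))).2 fun r => ?_)]
    · simpa using tR
    · rw [mem_fl, List.mem_range, List.mem_singleton]
      refine ⟨fun q => by_contra fun z => q.2 (g (a, r) (by simp [ha, q.1]) ⟨t, ⟨Y, hY⟩, fun x hx => ?_⟩), ?_⟩
      · rcases List.mem_cons.1 hx with rfl | hx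
        exacts [fun _ => Ne.symm z, t2 x hx]
      · rintro rfl
        exact ⟨Nat.lt_succ_of_le tR, fun q => t2 _ (List.mem_append_left _ q) ha rfl⟩
  · exact (hY.big true (not_lt.1 ha)).symm

end Pool.Agent.H.MP_00b752_lc
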