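import Pool.Agent.Lib.lead.CXNat

set_option autoImplicit false

namespace Pool.Agent.H.MP_00b752_lc

/-- an instance: for each agent its capacity and its preference list (a list of ties, best first) -/
abbrev In := List (ℕ × List (List ℕ))

def cap (I : In) (a : ℕ) : ℕ := (I.getD a (1, [])).1
def pref (I : In) (a : ℕ) : List (List ℕ) := (I.getD a (1, [])).2
/-- position of the tie of a containing b -/
def rk (I : In) (a b : ℕ) : ℕ := (pref I a).findIdx (b ∈ ·)
def Edge (I : In) (a b : ℕ) : Prop := a ≠ b ∧ b ∈ (pref I a).flatten ∧ a ∈ (pref I b).flatten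

/-- partners of a in the edge list M -/
def pa (M : List (ℕ × ℕ)) (a : ℕ) : Set ℕ := {b | (a, b) ∈ M ∨ (b, a) ∈ M}

def Strict (I : In) (M : List (ℕ × ℕ)) (a b : ℕ) : Prop :=
  (pa M a).ncard < cap I a ∨ ∃ d ∈ pa M a, rk I a b < rk I a d

def Weak (I : In) (M : List (ℕ × ℕ)) (a b : ℕ) : Prop :=
  Strict I M a b ∨ ((pa M a).ncard = cap I a ∧
    ∃ d ∈ pa M a, rk I a b = rk I a d ∧ ∀ d' ∈ pa M a, rk I a d' ≤ rk I a d)

/-- M is a strongly stable matching -/
def SS (I : In) (M : List (ℕ × ℕ)) : Prop :=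
  (∀ e ∈ M, Edge I e.1 e.2) ∧ (∀ a, (pa M a).ncard ≤ cap I a) ∧
    ∀ a b, Edge I a b → b ∉ pa M a →
      ¬ (Weak I M a b ∧ Weak I M b a ∧ (Strict I M a b ∨ Strict I M b a))

end Pool.Agent.H.MP_00b752_lc
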