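import Pool.Agent.H.MP_00b752_lc.D

set_option autoImplicit false

namespace Pool.Agent.H.MP_00b752_lc

open Pool.Agent.Lib.CX Finset Classical

def Sy (Y : Finset (ℕ × ℕ)) : Prop := ∀ e ∈ Y, e.swap ∈ Y
def SB (I : In) (K U : ℕ × ℕ → Prop) (f : ℕ → ℕ) : Prop := ∃ Y, Sy Y ∧ (∀ e ∈ L I, K e → e ∈ Y) ∧
  (∀ e ∈ Y, e ∈ L I ∧ U e) ∧ ∀ a, (N false Y a).card = f a
def SymSol (I : In) (t : ℕ → ℕ) (U : ℕ × ℕ → Prop) : Prop := ∃ Y, Sy Y ∧ Sol I (pr t t) Y ∧ ∀ e ∈ Y, U e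
def out (I : In) (t : ℕ → ℕ) (e : ℕ × ℕ) : Prop := SolB I (pr t t) (fun _ => False) (· ≠ e)
def fr (I : In) (t : ℕ → ℕ) (e : ℕ × ℕ) : Prop := SolB I (pr t t) (· = e) (fun _ => True) ∧ out I t e
def re (I : In) (t : ℕ → ℕ) : ℕ → ℕ → Prop := Relation.ReflTransGen fun a b => (a, b) ∈ fl (L I) (fr I t)
def GS (I : In) (t : ℕ → ℕ) (S : ℕ → Prop) : Prop := SB I (fun _ => False) (fun e => fr I t e ∧ S e.1)
  fun v => if S v then tg I (pr t t) false v - cn (L I) (fun e => e.1 = v ∧ ¬ out I t e) else 0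

section
variable {I : In} {Y Y' : Finset (ℕ × ℕ)} {t t' : ℕ → ℕ} {e : ℕ × ℕ}

lemma ne_L (h : e ∈ L I) : e.1 ≠ e.2 := (mem_L.1 h).1

lemma dg_sym (h : Sy Y) (h' : ∀ e ∈ Y, e ∈ L I) (a : ℕ) :
    dg Prod.fst Prod.snd (Y.filter fun e => e.1 < e.2) a = (N false Y a).card := by
  refine card_nbij' (fun e => if e.1 = a then e else e.swap) (fun e => if e.1 < e.2 then e else e.swap)
    ?_ ?_ ?_ ?_ <;> rintro ⟨x, y⟩ he <;> simp only [coe_filter, mem_filter, Set.mem_ofPred_eq, N, en_f] at he ⊢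
  · have := h _ he.1.1; split_ifs <;> simp_all
  · have h1 := h _ he.1; have := ne_L (h' _ he.1); obtain ⟨h2, rfl⟩ := he
    split_ifs with q
    exacts [⟨⟨h2, q⟩, .inl rfl⟩, ⟨⟨h1, this.lt_or_gt.resolve_left q⟩, .inr rfl⟩]
  · split_ifs <;> simp_all <;> omega
  · have := ne_L (h' _ he.1); split_ifs <;> simp_all

lemma sb_iff (K U : ℕ × ℕ → Prop) (f : ℕ → ℕ) : SB I K U f ↔ Btw (fl (L I) fun e => e.1 < e.2) Prod.fst Prod.snd
    (fun e => K e ∨ K e.swap) (fun e => U e ∧ U e.swap) f := by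
  constructor
  · rintro ⟨Y, h1, h2, h3, h4⟩
    refine ⟨Y.filter fun e => e.1 < e.2, fun e he k => ?_, fun e he => ?_,
      fun v => (dg_sym h1 (fun e he => (h3 e he).1) v).trans (h4 v)⟩
    · have := mem_fl.1 he
      exact mem_filter.2 ⟨k.elim (h2 e this.1) fun k => h1 _ (h2 _ (swap_L this.1) k), this.2⟩
    · have := mem_filter.1 he
      exact ⟨mem_fl.2 ⟨(h3 e this.1).1, this.2⟩, (h3 e this.1).2, (h3 _ (h1 e this.1)).2⟩
  · rintro ⟨M, h1, h2, h3⟩
    simp only [mem_fl] at h1 h2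
    have k : ∀ e, e ∈ M ∪ M.map (Equiv.prodComm _ _).toEmbedding ↔ e ∈ M ∨ e.swap ∈ M := by simp
    have s : Sy (M ∪ M.map (Equiv.prodComm _ _).toEmbedding) := fun e he => (k _).2 ((k _).1 he).symm
    have u : ∀ e ∈ M ∪ M.map (Equiv.prodComm _ _).toEmbedding, e ∈ L I ∧ U e := fun e he => ((k _).1 he).elim
      (fun q => ⟨(h2 e q).1.1, (h2 e q).2.1⟩) fun q => ⟨swap_L (h2 _ q).1.1, (h2 _ q).2.2⟩
    refine ⟨_, s, fun e he q => (k e).2 ?_, u, fun a => ?_⟩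
    · rcases (ne_L he).lt_or_gt with z | z
      exacts [.inl (h1 e ⟨he, z⟩ (.inl q)), .inr (h1 _ ⟨swap_L he, z⟩ (.inr q))]
    · rw [← dg_sym s fun e he => (u e he).1, ← h3]
      congr 1; ext e
      rw [mem_filter, k]
      exact ⟨fun q => q.1.resolve_right fun z => q.2.not_gt (h2 _ z).1.2, fun q => ⟨.inl q, (h2 e q).1.2⟩⟩

def PA (Y : Finset (ℕ × ℕ)) (a : ℕ) : Finset ℕ := (N false Y a).image Prod.snd
lemma mem_PA {a b : ℕ} : b ∈ PA Y a ↔ (a, b) ∈ Y := by simp [PA]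

lemma cardN (h : Sy Y) (i : Bool) (a : ℕ) (Q : ℕ → ℕ → Prop) [∀ x y, Decidable (Q x y)] :
    ((N i Y a).filter fun e => Q (en i e) (en (!i) e)).card = ((PA Y a).filter (Q a)).card := by
  refine card_nbij' (en (!i)) (fun b => bif i then (b, a) else (a, b)) ?_ ?_ ?_ ?_ <;> cases i <;> intro x he <;>
    simp only [coe_filter, mem_PA, Set.mem_ofPred_eq, mem_N, en_f, en_t, Bool.not_true, Bool.not_false, cond_true,
      cond_false] at he ⊢
  · obtain ⟨⟨h1, rfl⟩, h2⟩ := he; exact ⟨h1, h2⟩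
  · obtain ⟨⟨h1, rfl⟩, h2⟩ := he; exact ⟨h _ h1, h2⟩
  · exact ⟨⟨he.1, trivial⟩, he.2⟩
  · exact ⟨⟨h _ he.1, trivial⟩, he.2⟩
  · obtain ⟨⟨h1, rfl⟩, h2⟩ := he; rfl
  · obtain ⟨⟨h1, rfl⟩, h2⟩ := he; rfl

lemma cardN' (h : Sy Y) (i : Bool) (a : ℕ) : (N i Y a).card = (PA Y a).card := by
  simpa using cardN h i a fun _ _ => True

lemma sym_iff (hb : ∀ a, n I ≤ a → t a = R I) (U : ℕ × ℕ → Prop) : SymSol I t U ↔ Nrm I (pr t t) ∧
    SB I (fo I (pr t t)) (fun e => al I (pr t t) e ∧ U e) (tg I (pr t t) false) := by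
  have hb : ∀ i a, n I ≤ a → pr t t i a = R I := fun i => by cases i <;> exact hb
  constructor
  · rintro ⟨Y, s, h, h1⟩
    exact ⟨((sol_iff hb).1 h).1, Y, s, h.fo, fun e he => ⟨h.sub e he, h.al e he, h1 e he⟩, h.tg _⟩
  · rintro ⟨h, Y, s, h1, h2, h3⟩
    refine ⟨Y, s, (sol_iff hb).2 ⟨h, h1, fun e he => ⟨(h2 e he).1, (h2 e he).2.1⟩, fun i a q => ?_⟩,
      fun e he => (h2 e he).2.2⟩
    rw [cardN' s, ← cardN' s false, h3, tg, if_pos (by cases i <;> exact q)]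

lemma Sol.sw (h : Sol I (pr t t) Y) : ∃ Z, Sol I (pr t t) Z ∧ ∀ e, e ∈ Z ↔ e.swap ∈ Y :=
  ⟨_, (show (fun i => pr t t (!i)) = pr t t from funext fun i => by cases i <;> rfl) ▸ h.swap, by simp⟩

lemma out_iff : out I t e ↔ ∃ Y, Sol I (pr t t) Y ∧ e ∉ Y := by
  simp only [out, SolB]; exact exists_congr fun Y => and_congr_right' ⟨fun h q => h.2 e q rfl,
    fun h => ⟨by simp, fun x hx q => h (q ▸ hx)⟩⟩
lemma fr_iff (he : e ∈ L I) : fr I t e ↔ (∃ Y, Sol I (pr t t) Y ∧ e ∈ Y) ∧ out I t e := by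
  simp only [fr, SolB]; exact and_congr_left' (exists_congr fun Y => and_congr_right' ⟨fun h => h.1 e he rfl,
    fun h => ⟨fun x _ q => q ▸ h, by simp⟩⟩)
lemma out.swap (h : out I t e.swap) : out I t e := by
  obtain ⟨Y, h1, h2⟩ := out_iff.1 h
  obtain ⟨Z, z1, z2⟩ := h1.sw
  exact out_iff.2 ⟨Z, z1, mt (z2 e).1 h2⟩
lemma fr.swap (h : fr I t e) (he : e ∈ L I) : fr I t e.swap := by
  obtain ⟨⟨Y, h1, h2⟩, h3⟩ := (fr_iff he).1 h
  obtain ⟨Z, z1, z2⟩ := h1.sw
  exact (fr_iff (swap_L he)).2 ⟨⟨Z, z1, (z2 _).2 h2⟩, out.swap h3⟩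

lemma good_all (h : T I t) (g : ∀ a < n I, GS I t (re I t a)) : SymSol I t fun _ => True := by
  obtain ⟨Y, h⟩ := h
  choose! M m1 m0 m2 m3 using fun (S : ℕ → Prop) (h : GS I t S) => h
  let W := A I fun e => e ∈ M (re I t e.1)
  have w1 : ∀ e ∈ W, e ∈ L I ∧ fr I t e := fun e he =>
    ⟨(mem_A.1 he).1, (m2 _ (g _ (en_lt (mem_A.1 he).1 false)) e (mem_A.1 he).2).2.1⟩
  have w2 : Sy W := fun e he => by
    have q := w1 e he
    have : re I t e.2 = re I t e.1 := funext fun v => propext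
      ⟨.head (mem_fl.2 q), .head (mem_fl.2 ⟨swap_L q.1, q.2.swap q.1⟩)⟩
    exact mem_A.2 ⟨swap_L q.1, this ▸ m1 _ (g _ (en_lt q.1 false)) e (mem_A.1 he).2⟩
  have k1 : ∀ e, ¬ out I t e → e ∈ Y := fun e q => not_not.1 fun z => q (out_iff.2 ⟨Y, h, z⟩)
  refine (sym_iff (t := t) (fun _ => h.big true) _).2 ⟨((sol_iff fun i _ => h.big i).1 h).1, A I (¬ out I t ·) ∪ W, fun e he => ?_,
    fun e he q => ?_, fun e he => ?_, fun a => ?_⟩
  · exact mem_union.2 ((mem_union.1 he).imp (fun q => mem_A.2 ⟨swap_L (mem_A.1 q).1, mt out.swap (mem_A.1 q).2⟩)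
      (w2 e))
  · exact mem_union_left _ (mem_A.2 ⟨he, fun z => by
      obtain ⟨Z, z1, z2⟩ := out_iff.1 z; exact z2 (z1.fo e he q)⟩)
  · rcases mem_union.1 he with q | q
    · exact ⟨(mem_A.1 q).1, h.al e (k1 e (mem_A.1 q).2), trivial⟩
    · obtain ⟨Z, z1, z2⟩ := ((fr_iff (w1 e q).1).1 (w1 e q).2).1
      exact ⟨(w1 e q).1, z1.al e z2, trivial⟩
  rcases lt_or_ge a (n I) with q | q
  · have e1 : N false W a = N false (M (re I t a)) a := by
      ext e
      simp only [mem_N, W, mem_A, en_f]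
      exact ⟨fun z => ⟨z.2 ▸ z.1.2, z.2⟩, fun z => ⟨⟨(m2 _ (g a q) e z.1).1, z.2.symm ▸ z.1⟩, z.2⟩⟩
    have e2 := (m3 _ (g a q) a).trans (if_pos Relation.ReflTransGen.refl)
    rw [← e1, cn_A] at e2
    have e3 : N false (A I (¬ out I t ·)) a = A I fun e => e.1 = a ∧ ¬ out I t e := by
      ext e; simp only [mem_N, mem_A, en_f]; tauto
    have e4 := (card_le_card (s := A I fun e => e.1 = a ∧ ¬ out I t e) (t := N false Y a) fun e he =>
      mem_N.2 ⟨k1 e (mem_A.1 he).2.2, (mem_A.1 he).2.1⟩).trans_eq (h.tg false a)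
    rw [N, filter_union, card_union_of_disjoint (disjoint_left.2 fun e p q => by
      exact (mem_A.1 (mem_filter.1 p).1).2 (w1 e (mem_filter.1 q).1).2.2)]
    exact (congrArg₂ (· + ·) (congrArg card e3) e2).trans (by omega)
  · rw [tg_big (fun i _ => h.big i) _ q, N_big (fun e he => (mem_union.1 he).elim (fun z => (mem_A.1 z).1) fun z => (w1 e z).1) _ q,
      card_empty]

lemma good_of (h : T I t) (s : Sy Y') (h' : Sol I (pr t' t') Y') {a : ℕ} (ha : t a = t' a) :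
    GS I t (re I t a) := by
  obtain ⟨Y, h⟩ := h
  have k : ∀ v, re I t a v → t v = t' v := fun v hv => by
    induction hv with
    | refl => exact ha
    | @tail u v _ q ih =>
      obtain ⟨⟨Y1, y1, y2⟩, y3⟩ := (fr_iff (mem_fl.1 q).1).1 (mem_fl.1 q).2
      obtain ⟨Y2, y3, y4⟩ := out_iff.1 y3
      by_cases z : (u, v) ∈ Y'
      · have := opp y3 h' (fun x => y4 (x.2 z)); simp only [pr_t, pr_f] at this; omega
      · have := opp y1 h' (fun x => z (x.1 y2)); simp only [pr_t, pr_f] at this; omega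
  obtain ⟨Z, z1, z2⟩ := mix h h' (fun _ v => t v = t' v) (fun e he => by
    have := opp h h' he; simp only [pr_t, pr_f] at this; omega) (σ := pr t t)
    (fun i v => by cases i <;> simp) fun _ _ => .inl
  refine ⟨Y'.filter fun e => fr I t e ∧ re I t a e.1, fun e he => ?_, by simp, fun e he => ?_, fun v => ?_⟩
  · obtain ⟨q1, q2, q3⟩ := mem_filter.1 he
    exact mem_filter.2 ⟨s e q1, q2.swap (h'.sub e q1), q3.tail (mem_fl.2 ⟨h'.sub e q1, q2⟩)⟩
  · exact ⟨h'.sub e (mem_filter.1 he).1, (mem_filter.1 he).2⟩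
  beta_reduce
  split_ifs with q
  · have e1 := z2 false v
    rw [if_pos (k v q)] at e1
    rw [← z1.tg, cn_A, ← card_filter_add_card_filter_not (s := N false Z v) (out I t)]
    refine Nat.eq_sub_of_add_eq (congrArg₂ (· + ·) (congrArg card ?_) (congrArg card ?_)) <;> ext e
    · have e2 := Finset.ext_iff.1 e1 e
      simp only [mem_filter, mem_N, en_f] at e2 ⊢
      exact ⟨fun y => ⟨e2.2 ⟨y.1.1, y.2⟩, y.1.2.1.2⟩, fun y => ⟨⟨(e2.1 y.1).1,
        (fr_iff (z1.sub e y.1.1)).2 ⟨⟨Z, z1, y.1.1⟩, y.2⟩, y.1.2 ▸ q⟩, y.1.2⟩⟩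
    · have := z1.sub e
      have := (@out_iff I t e).2 ∘ fun x => ⟨Z, z1, x⟩
      simp only [mem_filter, mem_N, en_f, mem_A]; tauto
  · exact card_eq_zero.2 (filter_eq_empty_iff.2 fun e he z => q (z ▸ (mem_filter.1 he).2.2))

lemma ss_of (hc : ∀ a, 0 < cap I a) (s : Sy Y) (h : Sol I (pr t t) Y) {M : List (ℕ × ℕ)}
    (hM : ∀ e, e ∈ M ↔ e ∈ Y) : SS I M := by
  have e : ∀ a, pa M a = PA Y a := fun a => Set.ext fun b => by
    simp only [pa, hM, Set.mem_ofPred_eq, mem_coe, mem_PA]; exact or_iff_left_of_imp (s _)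
  have hc : ∀ a, c I a = cap I a := fun a => max_eq_right (hc a)
  have k : ∀ a d, d ∈ pa M a → rk I a d ≤ t a := fun a d q => h.al (a, d) (mem_PA.1 (mem_coe.1 (e a ▸ q))) false
  have k1 : ∀ {a b}, Edge I a b → Strict I M a b → rk I a b < t a := by
    rintro a b q (z | ⟨d, z1, z2⟩)
    · rw [e, Set.ncard_coe_finset, ← cardN' s false, ← hc] at z
      exact q.rk.trans_le (not_lt.1 fun y => z.ne (h.full false a y))
    · exact z2.trans_le (k a d z1)
  have k2 : ∀ {a b}, Edge I a b → Weak I M a b → rk I a b ≤ t a := by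
    rintro a b q (z | ⟨-, d, z1, z2, -⟩)
    exacts [(k1 q z).le, z2.trans_le (k a d z1)]
  refine ⟨fun x hx => mem_L.1 (h.sub x ((hM x).1 hx)), fun a => ?_, fun a b q z ⟨w1, w2, w3⟩ => z (.inl ?_)⟩
  · rw [e, Set.ncard_coe_finset, ← cardN' s false, ← hc]; exact h.deg _ a
  · exact (hM _).2 (h.fo _ (mem_L.2 q) (fo_iff.2 ⟨⟨k2 q w1, k2 q.symm w2⟩, w3.imp (k1 q) (k1 q.symm)⟩))

lemma of_ss (hc : ∀ a, 0 < cap I a) {M : List (ℕ × ℕ)} (h : SS I M) : ∃ t, SymSol I t fun _ => True := by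
  obtain ⟨h1, h2, h3⟩ := h
  let Y := A I fun e => e.2 ∈ pa M e.1
  have s : Sy Y := fun e he => mem_A.2 ⟨swap_L (mem_A.1 he).1, (mem_A.1 he).2.symm⟩
  have e : ∀ a, pa M a = PA Y a := fun a => Set.ext fun b => by
    simp only [mem_coe, mem_PA, Y, mem_A, mem_L]
    exact (and_iff_right_of_imp fun q => q.elim (h1 _) fun q => (h1 _ q).symm).symm
  simp only [Weak, Strict, e, Set.ncard_coe_finset, mem_coe] at h2 h3
  have hc' : ∀ a, c I a = cap I a := fun a => max_eq_right (hc a)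
  let t : ℕ → ℕ := fun a => if (PA Y a).card < cap I a then R I else (PA Y a).sup (rk I a)
  have r : ∀ a, ∀ d ∈ PA Y a, rk I a d < R I := fun a d q => (mem_L.1 (mem_A.1 (mem_PA.1 q)).1).rk
  have t1 : ∀ a, ∀ d ∈ PA Y a, rk I a d ≤ t a := fun a d q => by
    simp only [t]; split_ifs
    exacts [(r a d q).le, le_sup q]
  have t2 : ∀ a, (PA Y a).card < cap I a ∧ t a = R I ∨ (PA Y a).card = cap I a ∧ ∃ d ∈ PA Y a, t a = rk I a d :=
    fun a => (Classical.em _).imp (fun q => ⟨q, if_pos q⟩) fun q => ⟨(h2 a).antisymm (not_lt.1 q), by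
      simp only [t, if_neg q]; exact exists_mem_eq_sup _ (card_pos.1 ((hc a).trans_le (not_lt.1 q))) _⟩
  have p : ∀ i, pr t t i = t := fun i => by cases i <;> rfl
  have k1 : ∀ {a b}, rk I a b < t a → (PA Y a).card < cap I a ∨ ∃ d ∈ PA Y a, rk I a b < rk I a d :=
    fun {a b} q => (t2 a).imp And.left fun ⟨_, d, z1, z2⟩ => ⟨d, z1, z2 ▸ q⟩
  have k2 : ∀ {a b}, rk I a b ≤ t a → ((PA Y a).card < cap I a ∨ ∃ d ∈ PA Y a, rk I a b < rk I a d) ∨
      (PA Y a).card = cap I a ∧ ∃ d ∈ PA Y a, rk I a b = rk I a d ∧ ∀ d' ∈ PA Y a, rk I a d' ≤ rk I a d :=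
    fun {a b} q => q.lt_or_eq.elim (fun z => .inl (k1 z)) fun z => (t2 a).imp (fun y => .inl y.1)
      fun ⟨y, d, z1, z2⟩ => ⟨y, d, z1, z.trans z2, z2 ▸ t1 a⟩
  refine ⟨t, Y, s, ⟨fun e he => (mem_A.1 he).1, fun e he => al_iff.2 ⟨t1 _ _ (mem_PA.2 he),
    t1 _ _ (mem_PA.2 (s e he))⟩, fun e he q => by_contra fun z => ?_, fun i a => ?_, fun i a q => ?_,
    fun i a => ?_⟩, by simp⟩
  · have := fo_iff.1 q
    exact h3 e.1 e.2 (mem_L.1 he) (mt mem_PA.1 z) ⟨k2 this.1.1, k2 this.1.2, this.2.imp k1 k1⟩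
  · rw [p]; exact (t2 a).elim (fun q => q.2.le) fun ⟨_, d, z1, z2⟩ => z2 ▸ (r a d z1).le
  · rw [cardN' s, hc']; rw [p] at q; exact ((t2 a).resolve_left fun z => q.ne z.2).1
  · rw [p, hc']
    refine (cardN s i a fun x y => rk I x y < t a).trans_lt ?_
    rcases t2 a with q | ⟨q, d, z1, z2⟩
    · exact (card_filter_le _ _).trans_lt q.1
    · exact (card_lt_card (filter_ssubset.2 ⟨d, z1, z2.not_gt⟩)).trans_eq q

end

section
variable {α : Type} [Enc α] {I : α → In} {l : α → List ℕ} {e : α → ℕ × ℕ} {a b : α → ℕ} (hI : PT I)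
include hI

lemma pd_sb {K U : α → ℕ × ℕ → Prop} {f : α → ℕ → ℕ}
    (hK : PT fun x : α × ℕ × ℕ => @decide (K x.1 x.2) (propDecidable _))
    (hU : PT fun x : α × ℕ × ℕ => @decide (U x.1 x.2) (propDecidable _)) (hf : PT fun x : α × ℕ => f x.1 x.2)
    (hb : ∀ x a, n (I x) ≤ a → f x a = 0) {k : ∀ _ : α, Decidable _} :
    PT fun x => @decide (SB (I x) (K x) (U x) (f x)) (k x) :=
  pd_congr (pt_btw (V := fun x => List.range (n (I x))) (by fun_prop) (by fun_prop) (by fun_prop)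
    (PT.decide_or hK (hK.comp (g := fun x : α × ℕ × ℕ => (x.1, x.2.2, x.2.1)) (by fun_prop)))
    (PT.decide_and hU (hU.comp (g := fun x : α × ℕ × ℕ => (x.1, x.2.2, x.2.1)) (by fun_prop))) hf (by fun_prop)
    (fun _ => nodup_fl nodup_L _) (fun _ _ h => (mem_fl.1 h).2.ne) (fun _ => List.nodup_range)
    (fun x e he => by simpa using And.intro (en_lt (mem_fl.1 he).1 false) (en_lt (mem_fl.1 he).1 true))
    fun x v hv => hb x v (by simpa using hv)) fun x => sb_iff _ _ _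

variable (hl : PT l)
include hl

omit [Enc α] hI hl in
lemma big_fn (x : α) (i : Bool) (a : ℕ) (h : n (I x) ≤ a) :
    pr (fn (I x) (l x)) (fn (I x) (l x)) i a = R (I x) := by cases i <;> exact fn_big h

@[fun_prop] lemma pd_out (he : PT e) {k : ∀ _ : α, Decidable _} :
    PT fun x => @decide (out (I x) (fn (I x) (l x)) (e x)) (k x) :=
  pd_solb hI (by fun_prop) (by simpa using PT.const _) (by fun_prop) big_fn

@[fun_prop] lemma pd_fr (he : PT e) {k : ∀ _ : α, Decidable _} :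
    PT fun x => @decide (fr (I x) (fn (I x) (l x)) (e x)) (k x) :=
  PT.decide_and (pd_solb (k := fun _ => inferInstance) hI (by fun_prop) (by fun_prop) (by simpa using PT.const _)
    big_fn) (pd_out (k := fun _ => inferInstance) hI hl he)

@[fun_prop] lemma pd_re (ha : PT a) (hb : PT b) {k : ∀ _ : α, Decidable _} :
    PT fun x => @decide (re (I x) (fn (I x) (l x)) (a x) (b x)) (k x) :=
  PT.congr (g := fun x => reachB (fl (L (I x)) (fr (I x) (fn (I x) (l x))), a x, b x)) (by fun_prop) fun x => by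
    rw [Bool.eq_iff_iff, reachB_iff, decide_eq_true_eq]; rfl

@[fun_prop] lemma pd_good (ha : PT a) {k : ∀ _ : α, Decidable _} :
    PT fun x => @decide (GS (I x) (fn (I x) (l x)) (re (I x) (fn (I x) (l x)) (a x))) (k x) :=
  pd_sb hI (by simpa using PT.const _) (by fun_prop) (by fun_prop) fun x v h => by
    rw [tg_big (big_fn x) _ h]; simp

@[fun_prop] lemma pd_sym {D : α → List (ℕ × ℕ)} (hD : PT D) {k : ∀ _ : α, Decidable _} :
    PT fun x => @decide (SymSol (I x) (fn (I x) (l x)) (· ∉ D x)) (k x) :=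
  pd_congr (j := fun _ => inferInstance) (PT.decide_and (pd_nrm (k := fun _ => inferInstance) hI (by fun_prop))
    (pd_sb (k := fun _ => inferInstance) hI (by fun_prop) (by fun_prop) (by fun_prop)
      fun x v h => tg_big (big_fn x) _ h)) fun x => sym_iff (fun _ => fn_big) _

end

lemma exT : ∃ G : In → List ℕ, PT G ∧ ∀ I, (∃ t, SymSol I t fun _ => True) → SymSol I (fn I (G I)) fun _ => True := by
  obtain ⟨S, s1, s2⟩ := exS
  let P : In → List (ℕ × ℕ) := fun I => List.range (n I) ×ˢ List.range (R I + 1)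
  let D : In → List (ℕ × ℕ) → Prop := fun I B => ∀ a < n I, GS I (fn I (S (I, B))) (re I (fn I (S (I, B))) a)
  let F : In → List (ℕ × ℕ) → List (ℕ × ℕ) := fun I B => if D I B then B else fl (P I) fun x => x ∈ B ∨
    (fn I (S (I, B)) x.1 = x.2 ∧ ¬ GS I (fn I (S (I, B))) (re I (fn I (S (I, B))) x.1))
  have h1 : ∀ I k, ((F I)^[k] []).Sublist (P I) := fun I k => by
    induction k with
    | zero => simp
    | succ k ih =>
      rw [Function.iterate_succ_apply']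
      simp only [F]; split_ifs
      exacts [ih, List.filter_sublist]
  have hP : PT P := by unfold P; fun_prop
  have h2 : PT fun I => (F I)^[(P I).length + 1] [] := PT.iterate (B := fun I => size (P I))
    (by unfold F D; fun_prop) (by fun_prop) (by fun_prop) (by fun_prop) (by fun_prop)
    fun I k _ => size_sublist (h1 I k)
  refine ⟨fun I => S (I, (F I)^[(P I).length + 1] []), s1.comp (PT.id.pair h2), fun I ⟨t, Y, s, h, _⟩ => ?_⟩
  have h3 : ∀ k, Av I ((F I)^[k] []) t ∧ (D I ((F I)^[k] []) ∨ k ≤ ((F I)^[k] []).length) := fun k => by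
    induction k with
    | zero => simp [Av]
    | succ k ih =>
      have nd := (h1 I k).nodup (List.nodup_range.product List.nodup_range)
      have sb := (h1 I k).subset
      rw [Function.iterate_succ_apply']
      generalize (F I)^[k] [] = B at *
      obtain ⟨t1, t2⟩ := s2 I B ⟨t, ⟨Y, h⟩, ih.1⟩
      by_cases q : D I B
      · simp only [F, if_pos q]; exact ⟨ih.1, .inl q⟩
      simp only [F, if_neg q]
      refine ⟨fun x hx ha z => (mem_fl.1 hx).2.elim (fun y => ih.1 x y ha z) fun y =>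
        y.2 (good_of t1 s h (y.1.trans z.symm)), .inr ?_⟩
      have := ih.2.resolve_left q
      simp only [D, not_forall] at q
      obtain ⟨a, ha, q⟩ := q
      refine (Nat.succ_le_succ this).trans (List.subperm_of_subset (l₁ := (a, fn I (S (I, B)) a) :: B)
        (List.nodup_cons.2 ⟨fun y => t2 _ y ha rfl, nd⟩) (List.cons_subset.2 ⟨mem_fl.2 ⟨?_, .inr ⟨rfl, q⟩⟩,
          fun x hx => mem_fl.2 ⟨sb hx, .inl hx⟩⟩)).length_le
      simpa [P, ha, Nat.lt_succ_iff] using fn_le _ a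
  obtain ⟨h4, h5⟩ := h3 ((P I).length + 1)
  exact good_all (s2 I _ ⟨t, ⟨Y, h⟩, h4⟩).1 (h5.resolve_right fun q => by
    have := (h1 I ((P I).length + 1)).length_le; omega)

theorem main : ∃ f : In → Option (List (ℕ × ℕ)), PT f ∧ ∀ I, (∀ x ∈ I, 1 ≤ x.1) →
    (∀ M, f I = some M → SS I M) ∧ (f I = none → ∀ M, ¬ SS I M) := by
  obtain ⟨G, g1, g2⟩ := exT
  have := pt_gr (P := fun I D => SymSol I (fn I (G I)) (· ∉ D)) (L := L) (by fun_prop) (by fun_prop)
  obtain ⟨X, hX, e⟩ : ∃ X : In → List (ℕ × ℕ), PT X ∧ ∀ I, X I = gr (fun D => SymSol I (fn I (G I)) (· ∉ D)) (L I) :=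
    ⟨_, this, fun _ => rfl⟩
  refine ⟨fun I => if SymSol I (fn I (G I)) (· ∉ ([] : List (ℕ × ℕ))) then some (fl (L I) (· ∉ X I)) else none,
    by fun_prop, fun I hI => ?_⟩
  have hc : ∀ a, 0 < cap I a := fun a => by
    rcases lt_or_ge a I.length with q | q
    · rw [cap, List.getD_eq_getElem _ _ q]; exact hI _ (List.getElem_mem _)
    · rw [cap, List.getD_eq_default _ _ q]; exact Nat.one_pos
  dsimp only
  split_ifs with q
  · obtain ⟨⟨Y, s, h, y⟩, g⟩ := gr_spec (P := fun D => SymSol I (fn I (G I)) (· ∉ D))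
      (fun D D' k ⟨Y, h1, h2, h3⟩ => ⟨Y, h1, h2, fun x hx z => h3 x hx (k z)⟩) q (L I)
    rw [← e] at y g
    refine ⟨fun M hM => ss_of hc s h fun x => ?_, by simp⟩
    rw [← Option.some.inj hM, mem_fl]
    exact ⟨fun z => by_contra fun w => z.2 (g x z.1 ⟨Y, s, h, fun u hu v => (List.mem_cons.1 v).elim
      (fun r => w (r ▸ hu)) (y u hu)⟩), fun z => ⟨h.sub x z, y x z⟩⟩
  · exact ⟨by simp, fun _ M hM => q (by simpa using g2 I (of_ss hc hM))⟩

end Pool.Agent.H.MP_00b752_lc
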